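import Mathlib

/-!
# Sums over divisors (helper30)
-/

set_option autoImplicit false

namespace Pool.Agent.W5h30.FX

open Finset

/-- parametrisation of the `q` dividing `k m` -/
theorem div_sum (m H R : ℕ) (hm : 0 < m) (F : ℕ → ℝ) (hF : ∀ v, 0 ≤ F v) :
    ∑ k ∈ Icc 1 R, ∑ q ∈ (Icc 1 H).filter (fun q => q ∣ k * m), F (k * m / q) ≤
      ∑ e ∈ m.divisors, ∑ t ∈ Icc 1 H, ∑ l ∈ Icc 1 (R / t), F (l * (m / e)) := by
  classical
  set A : Finset (ℕ × ℕ) := (Icc 1 R ×ˢ Icc 1 H).filter (fun p => p.2 ∣ p.1 * m) with hA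
  have h1 : ∑ k ∈ Icc 1 R, ∑ q ∈ (Icc 1 H).filter (fun q => q ∣ k * m), F (k * m / q) =
      ∑ p ∈ A, F (p.1 * m / p.2) := by
    rw [hA, sum_filter, sum_product]
    refine sum_congr rfl fun k _ => ?_
    rw [sum_filter]
  set B : Finset (ℕ × ℕ × ℕ) := (m.divisors ×ˢ (Icc 1 H ×ˢ Icc 1 R)).filter
    (fun x => x.2.2 ≤ R / x.2.1) with hB
  have h2 : ∑ e ∈ m.divisors, ∑ t ∈ Icc 1 H, ∑ l ∈ Icc 1 (R / t), F (l * (m / e)) =
      ∑ x ∈ B, F (x.2.2 * (m / x.1)) := by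
    rw [hB, sum_filter, sum_product]
    refine sum_congr rfl fun e _ => ?_
    rw [sum_product]
    refine sum_congr rfl fun t _ => ?_
    rw [← sum_filter]
    refine sum_congr ?_ fun _ _ => rfl
    ext l
    simp only [mem_filter, mem_Icc]
    have : R / t ≤ R := Nat.div_le_self _ _
    omega
  rw [h1, h2]
  -- the injection
  set φ : ℕ × ℕ → ℕ × ℕ × ℕ := fun p => (Nat.gcd m p.2, p.2 / Nat.gcd m p.2,
    p.1 / (p.2 / Nat.gcd m p.2)) with hφ
  have key : ∀ p ∈ A, ∃ e t l m' : ℕ, 0 < e ∧ 0 < t ∧ m = m' * e ∧ p.2 = t * e ∧ p.1 = t * l ∧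
      Nat.gcd m p.2 = e ∧ 1 ≤ p.1 ∧ p.1 ≤ R ∧ p.2 ≤ H := by
    rintro ⟨k, q⟩ hp
    rw [hA, mem_filter, mem_product, mem_Icc, mem_Icc] at hp
    obtain ⟨⟨⟨h3, h4⟩, h5, h6⟩, h7⟩ := hp
    simp only at h3 h4 h5 h6 h7 ⊢
    obtain ⟨m', hm'⟩ := Nat.gcd_dvd_left m q
    obtain ⟨t, ht⟩ := Nat.gcd_dvd_right m q
    have hepos : 0 < Nat.gcd m q := Nat.gcd_pos_of_pos_left _ hm
    have hco : Nat.Coprime m' t := by
      have h8 := Nat.coprime_div_gcd_div_gcd hepos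
      have h9 : m / Nat.gcd m q = m' := Nat.div_eq_of_eq_mul_right hepos hm'
      have h10 : q / Nat.gcd m q = t := Nat.div_eq_of_eq_mul_right hepos ht
      rwa [h9, h10] at h8
    have htk : t ∣ k := by
      have h8 : Nat.gcd m q * t ∣ Nat.gcd m q * (k * m') := by
        rw [← ht]
        have h9 : Nat.gcd m q * (k * m') = k * m := by
          calc Nat.gcd m q * (k * m') = k * (Nat.gcd m q * m') := by ring
            _ = k * m := by rw [← hm']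
        rw [h9]
        exact h7
      have h9 := Nat.dvd_of_mul_dvd_mul_left hepos h8
      exact Nat.Coprime.dvd_of_dvd_mul_right hco.symm h9
    obtain ⟨l, hl⟩ := htk
    refine ⟨Nat.gcd m q, t, l, m', hepos, ?_, ?_, ?_, hl, rfl, h3, h4, h6⟩
    · rcases Nat.eq_zero_or_pos t with h | h
      · rw [h, mul_zero] at ht
        omega
      · exact h
    · rw [mul_comm]; exact hm'
    · rw [mul_comm]; exact ht
  have hφv : ∀ p ∈ A, ∀ e t l m' : ℕ, 0 < e → 0 < t → m = m' * e → p.2 = t * e → p.1 = t * l →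
      Nat.gcd m p.2 = e → φ p = (e, t, l) := by
    intro p _ e t l m' he ht h3 h4 h5 h6
    rw [hφ]
    simp only
    rw [h6, h4, h5, Nat.mul_div_cancel _ he, Nat.mul_div_cancel_left _ ht]
  have hinj : Set.InjOn φ (A : Set (ℕ × ℕ)) := by
    intro p hp p' hp' hpp
    obtain ⟨e, t, l, m', a1, a2, a3, a4, a5, a6, _⟩ := key p hp
    obtain ⟨e', t', l', m'', b1, b2, b3, b4, b5, b6, _⟩ := key p' hp'
    rw [hφv p hp e t l m' a1 a2 a3 a4 a5 a6, hφv p' hp' e' t' l' m'' b1 b2 b3 b4 b5 b6] at hpp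
    rw [Prod.mk.injEq, Prod.mk.injEq] at hpp
    obtain ⟨c1, c2, c3⟩ := hpp
    refine Prod.ext ?_ ?_
    · rw [a5, b5, c2, c3]
    · rw [a4, b4, c1, c2]
  have hval : ∀ p ∈ A, F (p.1 * m / p.2) = F ((φ p).2.2 * (m / (φ p).1)) := by
    intro p hp
    obtain ⟨e, t, l, m', a1, a2, a3, a4, a5, a6, _⟩ := key p hp
    rw [hφv p hp e t l m' a1 a2 a3 a4 a5 a6]
    simp only
    congr 1
    rw [a4, a5, a3, Nat.mul_div_cancel _ a1]
    calc t * l * (m' * e) / (t * e) = (t * e) * (l * m') / (t * e) := by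
          congr 1; ring
      _ = l * m' := Nat.mul_div_cancel_left _ (by positivity)
  rw [sum_congr rfl hval, ← sum_image (f := fun x : ℕ × ℕ × ℕ => F (x.2.2 * (m / x.1))) hinj]
  refine sum_le_sum_of_subset_of_nonneg ?_ fun _ _ _ => hF _
  intro x hx
  rw [mem_image] at hx
  obtain ⟨p, hp, rfl⟩ := hx
  obtain ⟨e, t, l, m', a1, a2, a3, a4, a5, a6, a7, a8, a9⟩ := key p hp
  rw [hφv p hp e t l m' a1 a2 a3 a4 a5 a6, hB, mem_filter, mem_product, mem_product, mem_Icc, mem_Icc,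
    Nat.mem_divisors]
  simp only
  have hl : 1 ≤ l := by
    rcases Nat.eq_zero_or_pos l with h | h
    · rw [h, mul_zero] at a5
      omega
    · exact h
  have hlR : l ≤ R / t := by
    rw [Nat.le_div_iff_mul_le a2]
    calc l * t = p.1 := by rw [a5]; ring
      _ ≤ R := a8
  refine ⟨⟨⟨⟨m', by rw [mul_comm]; exact a3⟩, hm.ne'⟩, ⟨a2, ?_⟩, hl, hlR.trans (Nat.div_le_self _ _)⟩, hlR⟩
  calc t = t * 1 := (mul_one t).symm
    _ ≤ t * e := Nat.mul_le_mul_left _ a1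
    _ = p.2 := a4.symm
    _ ≤ H := a9

end Pool.Agent.W5h30.FX
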