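import Mathlib
import Pool.Agent.W5h30.MU.Mult

/-!
# A large sieve inequality (helper30)
-/

set_option autoImplicit false
set_option linter.unusedVariables false

namespace Pool.Agent.W5h30.FX

open Finset Pool.Agent.Y933.KD
open Pool.Agent.W5h30.MU (sep_sum geo)

/-- the large sieve inequality for equal coefficients -/
theorem ls {X : Type} (S : Finset X) (y : X → ℝ) {Δ : ℝ} (hΔ : 0 < Δ)
    (hsep : ∀ x ∈ S, ∀ x' ∈ S, x ≠ x' → ∀ p : ℤ, Δ ≤ |y x - y x' - p|) (N : ℕ) (hN : 1 ≤ N * Δ) :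
    ∑ l ∈ Icc 1 N, ‖∑ x ∈ S, e ((l : ℝ) * y x)‖ ^ 2 ≤ 8 * N * S.card := by
  classical
  have hNpos : 0 < N := by
    rcases Nat.eq_zero_or_pos N with h | h
    · rw [h] at hN
      norm_num at hN
    · exact h
  have hNR : (0 : ℝ) < N := by exact_mod_cast hNpos
  set F : ℝ → ℂ := fun t => ∑ x ∈ S, e (t * y x) with hF
  -- first step
  have h1 : (N : ℝ) * ∑ l ∈ Icc 1 N, ‖F l‖ ^ 2 ≤
      ∑ l2 ∈ range (2 * N), ∑ l1 ∈ range (2 * N), ‖F ((l1 : ℝ) - l2)‖ ^ 2 := by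
    have h2 : (N : ℝ) * ∑ l ∈ Icc 1 N, ‖F l‖ ^ 2 = ∑ l2 ∈ range N, ∑ l ∈ Icc 1 N, ‖F l‖ ^ 2 := by
      rw [sum_const, card_range, nsmul_eq_mul]
    rw [h2]
    refine (sum_le_sum fun l2 hl2 => ?_).trans
      (sum_le_sum_of_subset_of_nonneg (range_subset_range.2 (by omega : N ≤ 2 * N))
        fun _ _ _ => sum_nonneg fun _ _ => sq_nonneg _)
    rw [mem_range] at hl2
    have h3 : ∑ l ∈ Icc 1 N, ‖F l‖ ^ 2 = ∑ l1 ∈ (Icc 1 N).image (fun l => l2 + l), ‖F ((l1 : ℝ) - l2)‖ ^ 2 := by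
      rw [sum_image fun x _ y _ hxy => by omega]
      refine sum_congr rfl fun l _ => ?_
      congr 3
      push_cast
      ring
    rw [h3]
    refine sum_le_sum_of_subset_of_nonneg ?_ fun _ _ _ => sq_nonneg _
    intro l1 hl1
    rw [mem_image] at hl1
    obtain ⟨l, hl, rfl⟩ := hl1
    rw [mem_Icc] at hl
    rw [mem_range]
    omega
  -- expansion
  have hsq : ∀ z : ℂ, ((‖z‖ ^ 2 : ℝ) : ℂ) = z * (starRingEnd ℂ) z := by
    intro z
    rw [Complex.mul_conj, Complex.normSq_eq_norm_sq]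
  have hconj : ∀ t : ℝ, (starRingEnd ℂ) (e t) = e (-t) := by
    intro t
    unfold e
    rw [← Complex.exp_conj, map_mul, Complex.conj_ofReal, Complex.conj_I]
    congr 1
    push_cast
    ring
  have h2 : ∑ l2 ∈ range (2 * N), ∑ l1 ∈ range (2 * N), ‖F ((l1 : ℝ) - l2)‖ ^ 2 =
      ∑ x ∈ S, ∑ x' ∈ S, ‖D (2 * N) (y x - y x')‖ ^ 2 := by
    have h3 : (((∑ l2 ∈ range (2 * N), ∑ l1 ∈ range (2 * N), ‖F ((l1 : ℝ) - l2)‖ ^ 2 : ℝ)) : ℂ) =
        ((∑ x ∈ S, ∑ x' ∈ S, ‖D (2 * N) (y x - y x')‖ ^ 2 : ℝ) : ℂ) := by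
      have e1 : ∀ l1 l2 : ℕ, ((‖F ((l1 : ℝ) - l2)‖ ^ 2 : ℝ) : ℂ) =
          ∑ x ∈ S, ∑ x' ∈ S, e (((l1 : ℝ) - l2) * (y x - y x')) := by
        intro l1 l2
        rw [hsq, hF]
        simp only
        rw [map_sum, sum_mul]
        refine sum_congr rfl fun x _ => ?_
        rw [mul_sum]
        refine sum_congr rfl fun x' _ => ?_
        rw [hconj, ← e_add]
        congr 1
        ring
      have e2 : ∀ ξ : ℝ, ((‖D (2 * N) ξ‖ ^ 2 : ℝ) : ℂ) =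
          ∑ l2 ∈ range (2 * N), ∑ l1 ∈ range (2 * N), e (((l1 : ℝ) - l2) * ξ) := by
        intro ξ
        rw [hsq]
        unfold D
        rw [map_sum, sum_mul_sum, sum_comm]
        refine sum_congr rfl fun l2 _ => sum_congr rfl fun l1 _ => ?_
        rw [hconj, ← e_add]
        congr 1
        ring
      rw [Complex.ofReal_sum, Complex.ofReal_sum]
      simp only [Complex.ofReal_sum, e1, e2]
      rw [sum_comm]
      have e3 : ∀ l1 ∈ range (2 * N), ∑ l2 ∈ range (2 * N), ∑ x ∈ S, ∑ x' ∈ S,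
          e (((l1 : ℝ) - l2) * (y x - y x')) = ∑ x ∈ S, ∑ x' ∈ S, ∑ l2 ∈ range (2 * N),
          e (((l1 : ℝ) - l2) * (y x - y x')) := by
        intro l1 _
        rw [sum_comm]
        refine sum_congr rfl fun x _ => ?_
        rw [sum_comm]
      rw [sum_congr rfl e3, sum_comm]
      refine sum_congr rfl fun x _ => ?_
      rw [sum_comm]
      refine sum_congr rfl fun x' _ => ?_
      rw [sum_comm]
    exact_mod_cast h3
  rw [h2] at h1
  -- the bound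
  have h3 : ∀ x ∈ S, ∑ x' ∈ S, ‖D (2 * N) (y x - y x')‖ ^ 2 ≤ 8 * (N : ℝ) ^ 2 := by
    intro x hx
    rw [← add_sum_erase _ _ hx]
    have e1 : ‖D (2 * N) (y x - y x)‖ ^ 2 ≤ 4 * (N : ℝ) ^ 2 := by
      have e2 : ‖D (2 * N) (y x - y x)‖ ≤ 2 * N := by
        unfold D
        refine (norm_sum_le _ _).trans ?_
        simp only [norm_e, sum_const, card_range, nsmul_eq_mul, mul_one]
        push_cast
        exact le_rfl
      calc ‖D (2 * N) (y x - y x)‖ ^ 2 ≤ (2 * (N : ℝ)) ^ 2 := pow_le_pow_left₀ (norm_nonneg _) e2 2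
        _ = _ := by ring
    set t : X → ℝ := fun x' => (y x - y x') - round (y x - y x') with ht
    have ht1 : ∀ x' ∈ S.erase x, Δ ≤ |t x'| := by
      intro x' hx'
      rw [mem_erase] at hx'
      exact hsep x hx x' hx'.2 hx'.1.symm _
    have ht2 : ∀ x' ∈ S.erase x, ∀ x'' ∈ S.erase x, x' ≠ x'' → Δ ≤ |t x' - t x''| := by
      intro x' hx' x'' hx'' hne
      rw [mem_erase] at hx' hx''
      have h4 := hsep x'' hx''.2 x' hx'.2 hne.symm (round (y x - y x') - round (y x - y x''))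
      have h5 : t x' - t x'' = y x'' - y x' - ((round (y x - y x') - round (y x - y x'') : ℤ) : ℝ) := by
        rw [ht]
        push_cast
        ring
      rw [h5]
      exact h4
    have h4 := sep_sum (S.erase x) t hΔ ht1 ht2
    have h5 : ∀ x' ∈ S.erase x, ‖D (2 * N) (y x - y x')‖ ^ 2 ≤ 1 / 4 * (1 / (t x') ^ 2) := by
      intro x' hx'
      have hne : t x' ≠ 0 := by
        intro h0
        have := ht1 x' hx'
        rw [h0, abs_zero] at this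
        linarith
      have h6 := geo (M := 2 * N) (by omega) (ξ := y x - y x') (t := t x') rfl hne
      have h7 : ∑ m ∈ range (2 * N), e (m * (y x - y x')) = D (2 * N) (y x - y x') := rfl
      rw [h7, norm_smul, Real.norm_eq_abs, abs_of_pos (by positivity), mul_pow] at h6
      have h8 : (0 : ℝ) < ((2 * N : ℕ) : ℝ) := by push_cast; linarith
      have h9 : ((((2 * N : ℕ) : ℝ))⁻¹) ^ 2 * ‖D (2 * N) (y x - y x')‖ ^ 2 =
          (1 / ((2 * N : ℕ) : ℝ) ^ 2) * ‖D (2 * N) (y x - y x')‖ ^ 2 := by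
        rw [inv_pow, one_div]
      rw [h9] at h6
      have h10 : 1 / (4 * ((2 * N : ℕ) : ℝ) ^ 2) * (1 / (t x') ^ 2) =
          (1 / ((2 * N : ℕ) : ℝ) ^ 2) * (1 / 4 * (1 / (t x') ^ 2)) := by
        field_simp
      rw [h10] at h6
      exact le_of_mul_le_mul_left h6 (by positivity)
    have h6 : ∑ x' ∈ S.erase x, ‖D (2 * N) (y x - y x')‖ ^ 2 ≤ 4 * (N : ℝ) ^ 2 := by
      refine (sum_le_sum h5).trans ?_
      rw [← mul_sum]
      have h7 : 1 / Δ ≤ N := by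
        rw [div_le_iff₀ hΔ]
        exact hN
      have h8 : (1 / Δ) ^ 2 ≤ (N : ℝ) ^ 2 := pow_le_pow_left₀ (by positivity) h7 2
      calc 1 / 4 * ∑ x' ∈ S.erase x, 1 / (t x') ^ 2 ≤ 1 / 4 * (16 / Δ ^ 2) := by gcongr
        _ = 4 * (1 / Δ) ^ 2 := by field_simp; norm_num
        _ ≤ _ := by gcongr
    linarith
  have h4 : (N : ℝ) * ∑ l ∈ Icc 1 N, ‖F l‖ ^ 2 ≤ S.card * (8 * (N : ℝ) ^ 2) := by
    refine h1.trans ((sum_le_sum h3).trans ?_)
    rw [sum_const, nsmul_eq_mul]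
  have h5 : (S.card : ℝ) * (8 * (N : ℝ) ^ 2) = N * (8 * N * S.card) := by ring
  rw [h5] at h4
  exact le_of_mul_le_mul_left h4 hNR

/-- for short sums -/
theorem ls' {X : Type} (S : Finset X) (y : X → ℝ) {Δ : ℝ} (hΔ : 0 < Δ)
    (hsep : ∀ x ∈ S, ∀ x' ∈ S, x ≠ x' → ∀ p : ℤ, Δ ≤ |y x - y x' - p|) (N : ℕ) :
    ∑ l ∈ Icc 1 N, ‖∑ x ∈ S, e ((l : ℝ) * y x)‖ ^ 2 ≤ 8 * (N + 1 / Δ + 1) * S.card := by
  obtain ⟨M, hM⟩ : ∃ M : ℕ, M = N + ⌈1 / Δ⌉₊ := ⟨_, rfl⟩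
  have h1 : (1 / Δ : ℝ) ≤ ⌈1 / Δ⌉₊ := Nat.le_ceil _
  have h2 : (⌈1 / Δ⌉₊ : ℝ) < 1 / Δ + 1 := Nat.ceil_lt_add_one (by positivity)
  have hMR : (M : ℝ) = N + ⌈1 / Δ⌉₊ := by rw [hM]; push_cast; ring
  have h3 : 1 ≤ (M : ℝ) * Δ := by
    have h4 : 1 / Δ ≤ (M : ℝ) := by
      rw [hMR]
      have : (0 : ℝ) ≤ N := Nat.cast_nonneg _
      linarith
    rwa [div_le_iff₀ hΔ] at h4
  have h4 := ls S y hΔ hsep M h3
  have h5 : ∑ l ∈ Icc 1 N, ‖∑ x ∈ S, e ((l : ℝ) * y x)‖ ^ 2 ≤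
      ∑ l ∈ Icc 1 M, ‖∑ x ∈ S, e ((l : ℝ) * y x)‖ ^ 2 := by
    refine sum_le_sum_of_subset_of_nonneg ?_ fun _ _ _ => sq_nonneg _
    exact Icc_subset_Icc le_rfl (by omega)
  refine h5.trans (h4.trans ?_)
  refine mul_le_mul_of_nonneg_right ?_ (Nat.cast_nonneg _)
  rw [hMR]
  linarith

end Pool.Agent.W5h30.FX
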