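import Mathlib
import Pool.Agent.W5h30.SM.Main

/-!
# Total variation for the uniform distribution on a finite set, one window (helper30)
-/

set_option autoImplicit false
set_option linter.unusedVariables false

namespace Pool.Agent.W5h30.FX

open Finset MeasureTheory Pool.Agent.Y933.KD Pool.Agent.W5h30.SM

/-- a sum over the nonzero frequencies -/
lemma sum_box {R : ℕ} (g : ℤ → ℝ) (hg : ∀ z, 0 ≤ g z) (hsym : ∀ z, g (-z) = g z) :
    ∑ k ∈ (Fintype.piFinset fun _ : Fin 1 => Finset.Ioo (-(R : ℤ)) R).erase 0, g (k 0) ≤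
      2 * ∑ l ∈ Icc 1 R, g l := by
  classical
  set T := (Fintype.piFinset fun _ : Fin 1 => Finset.Ioo (-(R : ℤ)) R).erase 0 with hT
  have hmem : ∀ k ∈ T, k 0 ≠ 0 ∧ -(R : ℤ) < k 0 ∧ k 0 < R := by
    intro k hk
    rw [hT, mem_erase, Fintype.mem_piFinset] at hk
    have h1 := mem_Ioo.1 (hk.2 0)
    refine ⟨fun h0 => hk.1 ?_, h1.1, h1.2⟩
    funext j
    rw [Subsingleton.elim j 0]
    exact h0
  have hsplit : ∑ k ∈ T, g (k 0) = ∑ k ∈ T.filter (fun k => 0 < k 0), g (k 0) +
      ∑ k ∈ T.filter (fun k => ¬ 0 < k 0), g (k 0) := (sum_filter_add_sum_filter_not _ _ _).symm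
  have part : ∀ T' : Finset (Fin 1 → ℤ), (∀ k ∈ T', k ∈ T) → Set.InjOn (fun k : Fin 1 → ℤ => (k 0).natAbs) (T' : Set (Fin 1 → ℤ)) →
      ∑ k ∈ T', g (k 0) ≤ ∑ l ∈ Icc 1 R, g l := by
    intro T' hT' hinj
    have h1 : ∀ k ∈ T', g (k 0) = g (((k 0).natAbs : ℕ) : ℤ) := by
      intro k _
      rcases Int.natAbs_eq (k 0) with h | h
      · rw [← h]
      · conv_lhs => rw [h]
        rw [hsym]
    rw [sum_congr rfl h1, ← sum_image (f := fun l : ℕ => g (l : ℤ)) hinj]
    refine sum_le_sum_of_subset_of_nonneg ?_ fun _ _ _ => hg _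
    intro l hl
    rw [mem_image] at hl
    obtain ⟨k, hk, rfl⟩ := hl
    have h2 := hmem k (hT' k hk)
    rw [mem_Icc]
    constructor
    · exact Int.natAbs_pos.2 h2.1
    · omega
  rw [hsplit, two_mul]
  refine add_le_add (part _ (fun k hk => (mem_filter.1 hk).1) ?_) (part _ (fun k hk => (mem_filter.1 hk).1) ?_)
  · intro k hk k' hk' h
    rw [mem_coe, mem_filter] at hk hk'
    funext j
    rw [Subsingleton.elim j 0]
    simp only at h
    omega
  · intro k hk k' hk' h
    rw [mem_coe, mem_filter] at hk hk'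
    funext j
    rw [Subsingleton.elim j 0]
    simp only at h
    omega

theorem tv_fin {X : Type} (S : Finset X) (hS : S.Nonempty) (u : X → ℝ) {K J : ℕ} (hK : 0 < K) (hJ : 0 < J)
    (E : Finset ℕ) (hE : ∀ a ∈ E, a < K) :
    |((S.filter (fun x => cell K (u x) ∈ E)).card : ℝ) / S.card - E.card / K| ≤
      5 / J + 5 * √(2 * ∑ k ∈ (Icc 1 (2 * (K * J ^ 2)) : Finset ℕ), ‖((S.card : ℝ)⁻¹) • ∑ x ∈ S, e ((k : ℝ) * u x)‖ ^ 2) := by
  classical
  let _ : MeasurableSpace X := ⊤
  have hcard : 0 < S.card := card_pos.2 hS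
  set μ : Measure X := (S.card : ENNReal)⁻¹ • ∑ x ∈ S, Measure.dirac x with hμ
  have hμp : IsProbabilityMeasure μ := by
    constructor
    rw [hμ, Measure.smul_apply, Measure.coe_finsetSum, Finset.sum_apply]
    simp only [measure_univ, sum_const, nsmul_eq_mul, mul_one, smul_eq_mul]
    exact ENNReal.inv_mul_cancel (by exact_mod_cast hcard.ne') (ENNReal.natCast_ne_top _)
  have hint : ∀ {G : Type} [NormedAddCommGroup G] [NormedSpace ℝ G] [CompleteSpace G] (f : X → G),
      ∫ x, f x ∂μ = ((S.card : ℝ)⁻¹) • ∑ x ∈ S, f x := by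
    intro G _ _ _ f
    rw [hμ, integral_smul_measure, integral_finsetSum_measure]
    · simp only [integral_dirac]
      congr 1
      rw [ENNReal.toReal_inv, ENNReal.toReal_natCast]
    · intro i _
      exact integrable_dirac (by simp)
  obtain ⟨E', hE'⟩ : ∃ E' : Finset (Fin 1 → ℕ), E' = E.image (fun a => fun _ : Fin 1 => a) := ⟨_, rfl⟩
  have hinj : Function.Injective (fun a : ℕ => fun _ : Fin 1 => a) := fun a b h => congrFun h 0
  have hE'card : E'.card = E.card := by rw [hE', card_image_of_injective _ hinj]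
  have hE'mem : ∀ w : Fin 1 → ℕ, w ∈ E' ↔ w 0 ∈ E := by
    intro w
    rw [hE', mem_image]
    constructor
    · rintro ⟨a, ha, rfl⟩
      exact ha
    · intro h
      refine ⟨w 0, h, ?_⟩
      funext j
      rw [Subsingleton.elim j 0]
  have h1 := smooth μ (fun _ : Fin 1 => K) (fun _ => hK) hJ (fun _ => u) (fun _ => measurable_from_top) E'
    (fun w hw j => by
      rw [Subsingleton.elim j 0]
      exact hE _ ((hE'mem w).1 hw))
  rw [hint, Fintype.card_fin, hE'card, smul_eq_mul] at h1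
  have h2 : ((S.card : ℝ)⁻¹) * ∑ x ∈ S, (if (fun _ : Fin 1 => cell K (u x)) ∈ E' then (1 : ℝ) else 0) =
      ((S.filter (fun x => cell K (u x) ∈ E)).card : ℝ) / S.card := by
    rw [← sum_filter, sum_const, nsmul_eq_mul, mul_one, div_eq_inv_mul]
    congr 2
    congr 1
    ext x
    simp only [mem_filter, hE'mem]
  rw [h2] at h1
  have h3 : ∏ _j : Fin 1, (K : ℝ) = K := by simp
  rw [h3] at h1
  refine h1.trans ?_
  have h4 : D2 μ (fun _ : Fin 1 => u) (fun _ => K) J ≤
      √(2 * ∑ k ∈ (Icc 1 (2 * (K * J ^ 2)) : Finset ℕ), ‖((S.card : ℝ)⁻¹) • ∑ x ∈ S, e ((k : ℝ) * u x)‖ ^ 2) := by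
    unfold D2
    refine Real.sqrt_le_sqrt ?_
    set g : ℤ → ℝ := fun z => ‖((S.card : ℝ)⁻¹) • ∑ x ∈ S, e ((z : ℝ) * u x)‖ ^ 2 with hg
    have h5 : ∀ k : Fin 1 → ℤ, ‖hat μ (fun _ : Fin 1 => u) k‖ ^ 2 = g (k 0) := by
      intro k
      unfold SM.hat
      rw [hint, hg]
      simp only [Fin.sum_univ_one]
    have h6 : SM.box (rad (fun _ : Fin 1 => K) J) =
        Fintype.piFinset fun _ : Fin 1 => Finset.Ioo (-((2 * (K * J ^ 2) : ℕ) : ℤ)) ((2 * (K * J ^ 2) : ℕ) : ℤ) := by
      unfold SM.box rad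
      push_cast
      rfl
    rw [h6]
    have hsym : ∀ z, g (-z) = g z := by
      intro z
      rw [hg]
      simp only
      have hconj : ∀ t : ℝ, (starRingEnd ℂ) (e t) = e (-t) := by
        intro t
        unfold e
        rw [← Complex.exp_conj, map_mul, Complex.conj_ofReal, Complex.conj_I]
        congr 1
        push_cast
        ring
      have h7 : ∑ x ∈ S, e (((-z : ℤ) : ℝ) * u x) = (starRingEnd ℂ) (∑ x ∈ S, e ((z : ℝ) * u x)) := by
        rw [map_sum]
        refine sum_congr rfl fun x _ => ?_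
        rw [hconj]
        congr 1
        push_cast
        ring
      rw [h7, norm_smul, norm_smul, RCLike.norm_conj]
    have h7 := sum_box (R := 2 * (K * J ^ 2)) g (fun z => sq_nonneg _) hsym
    calc _ = ∑ k ∈ (Fintype.piFinset fun _ : Fin 1 =>
          Finset.Ioo (-((2 * (K * J ^ 2) : ℕ) : ℤ)) ((2 * (K * J ^ 2) : ℕ) : ℤ)).erase 0, g (k 0) :=
          sum_congr rfl fun k _ => h5 k
      _ ≤ _ := h7
      _ = _ := by
          congr 1
  push_cast at h4 ⊢
  linarith

end Pool.Agent.W5h30.FX
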