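import Mathlib
import Pool.Agent.W5h30.FX.Ls
import Pool.Agent.W5h30.FX.Div
import Pool.Agent.W5h30.FX.Tv
import Pool.Agent.W5h30.SM.Harm

/-!
# Exponential sums over the elements of a space of algebraic numbers (helper30)
-/

set_option autoImplicit false
set_option linter.unusedVariables false

namespace Pool.Agent.W5h30.FX

open Finset Pool.Agent.Y933.KD Pool.Agent.W5h30.SM

variable {r : ℕ}

/-- the linear form -/
def lin (ω : Fin r → ℝ) (h : Fin r → ℤ) : ℝ := ∑ j, (h j : ℝ) * ω j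

/-- the coefficients -/
noncomputable def box (r H : ℕ) : Finset (Fin r → ℤ) := Fintype.piFinset fun _ : Fin r => Icc (-(H : ℤ)) H

/-- the index set -/
noncomputable def TT (r H : ℕ) : Finset (Σ _ : ℕ, (Fin r → ℤ) × ℕ) := (Icc 1 H).sigma fun q => box r H ×ˢ range q

/-- the element -/
noncomputable def xx (ω : Fin r → ℝ) (p : Σ _ : ℕ, (Fin r → ℤ) × ℕ) : ℝ :=
  (p.2.2 + Int.fract (lin ω p.2.1)) / p.1

lemma card_box (r H : ℕ) : (box r H).card = (2 * H + 1) ^ r := by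
  unfold box
  rw [Fintype.card_piFinset, prod_const, card_univ, Fintype.card_fin, Int.card_Icc]
  congr 1
  omega

lemma card_TT (r H : ℕ) : ((TT r H).card : ℝ) = (2 * H + 1) ^ r * (H * (H + 1) / 2) := by
  unfold TT
  rw [card_sigma]
  have h1 : ∀ q ∈ Icc 1 H, (box r H ×ˢ range q).card = (2 * H + 1) ^ r * q := by
    intro q _
    rw [card_product, card_box, card_range]
  rw [sum_congr rfl h1, ← mul_sum]
  push_cast
  congr 1
  have h2 : ∀ n : ℕ, (∑ q ∈ Icc 1 n, (q : ℝ)) = n * (n + 1) / 2 := by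
    intro n
    induction n with
    | zero => simp
    | succ n ih =>
      rw [sum_Icc_succ_top (by omega), ih]
      push_cast
      ring
  exact h2 H

lemma e_nat (n : ℤ) : e (n : ℝ) = 1 := by
  unfold e
  rw [Complex.exp_eq_one_iff]
  exact ⟨n, by push_cast; ring⟩

/-- complete sums -/
lemma complete (q : ℕ) (hq : 0 < q) (a : ℕ) :
    ∑ i ∈ range q, e ((a : ℝ) * ((i : ℝ) / q)) = if q ∣ a then (q : ℂ) else 0 := by
  have hqR : (q : ℝ) ≠ 0 := by exact_mod_cast hq.ne'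
  split_ifs with h
  · obtain ⟨c, rfl⟩ := h
    have h1 : ∀ i ∈ range q, e (((q * c : ℕ) : ℝ) * ((i : ℝ) / q)) = 1 := by
      intro i _
      have h2 : ((q * c : ℕ) : ℝ) * ((i : ℝ) / q) = ((c * i : ℤ) : ℝ) := by
        push_cast
        field_simp
      rw [h2, e_nat]
    rw [sum_congr rfl h1]
    simp
  · set z : ℂ := e ((a : ℝ) / q) with hz
    have hpow : ∀ i : ℕ, e ((a : ℝ) * ((i : ℝ) / q)) = z ^ i := by
      intro i
      induction i with
      | zero => simp [e_zero]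
      | succ i ih =>
        rw [pow_succ, ← ih, hz, ← e_add]
        congr 1
        push_cast
        ring
    rw [sum_congr rfl fun i _ => hpow i]
    have hz1 : z ≠ 1 := by
      intro h1
      rw [hz] at h1
      unfold e at h1
      rw [Complex.exp_eq_one_iff] at h1
      obtain ⟨n, hn⟩ := h1
      apply h
      have h2 : ((2 * Real.pi * ((a : ℝ) / q) : ℝ) : ℂ) = ((n * (2 * Real.pi) : ℝ) : ℂ) := by
        have hI : (Complex.I : ℂ) ≠ 0 := Complex.I_ne_zero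
        apply mul_right_cancel₀ hI
        rw [hn]
        push_cast
        ring
      have h3 : 2 * Real.pi * ((a : ℝ) / q) = n * (2 * Real.pi) := by exact_mod_cast h2
      have h4 : (a : ℝ) / q = n := by
        have hpi : (2 * Real.pi) ≠ 0 := by positivity
        apply mul_left_cancel₀ hpi
        linarith
      rw [div_eq_iff hqR] at h4
      have h5 : (a : ℤ) = n * q := by exact_mod_cast h4
      have h6 : (q : ℤ) ∣ a := ⟨n, by rw [h5]; ring⟩
      exact_mod_cast h6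
    have hzq : z ^ q = 1 := by
      rw [← hpow q]
      have h2 : (a : ℝ) * ((q : ℝ) / q) = ((a : ℤ) : ℝ) := by
        rw [div_self hqR]
        push_cast
        ring
      rw [h2, e_nat]
    rw [geom_sum_eq hz1, hzq, sub_self, zero_div]

/-- the inner sums -/
noncomputable def FF (ω : Fin r → ℝ) (H : ℕ) (v : ℕ) : ℝ := ‖∑ h ∈ box r H, e ((v : ℝ) * lin ω h)‖ ^ 2

lemma FF_nonneg (ω : Fin r → ℝ) (H v : ℕ) : 0 ≤ FF ω H v := sq_nonneg _

/-- the exponential sum for one denominator -/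
lemma one_q (ω : Fin r → ℝ) (H : ℕ) (y : ℝ) (k m q : ℕ) (hq : 0 < q) :
    ‖∑ p ∈ box r H ×ˢ range q, e ((k : ℝ) * (m * (((p.2 : ℝ) + Int.fract (lin ω p.1)) / q + y)))‖ =
      if q ∣ k * m then q * √(FF ω H (k * m / q)) else 0 := by
  have hqR : (q : ℝ) ≠ 0 := by exact_mod_cast hq.ne'
  rw [sum_product]
  have h1 : ∑ h ∈ box r H, ∑ i ∈ range q, e ((k : ℝ) * (m * (((i : ℝ) + Int.fract (lin ω h)) / q + y))) =
      (∑ i ∈ range q, e (((k * m : ℕ) : ℝ) * ((i : ℝ) / q))) *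
        (e ((k * m : ℝ) * y) * ∑ h ∈ box r H, e ((k * m : ℝ) * (Int.fract (lin ω h) / q))) := by
    rw [sum_comm, sum_mul]
    refine sum_congr rfl fun i _ => ?_
    rw [mul_sum, mul_sum]
    refine sum_congr rfl fun h _ => ?_
    rw [← e_add, ← e_add]
    congr 1
    push_cast
    ring
  rw [h1, complete q hq]
  split_ifs with h
  · obtain ⟨c, hc⟩ := h
    rw [norm_mul, norm_mul, norm_e, one_mul, Complex.norm_natCast, hc, Nat.mul_div_cancel_left _ hq]
    unfold FF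
    rw [Real.sqrt_sq (norm_nonneg _)]
    congr 2
    refine sum_congr rfl fun h _ => ?_
    have h2 : (k * m : ℝ) * (Int.fract (lin ω h) / q) = (c : ℝ) * lin ω h + ((-(c * ⌊lin ω h⌋) : ℤ) : ℝ) := by
      have h3 : (k * m : ℝ) = q * c := by exact_mod_cast hc
      rw [h3]
      unfold Int.fract
      push_cast
      field_simp
      ring
    rw [h2, e_add, e_nat, mul_one]
  · rw [zero_mul, norm_zero]

/-- the exponential sum -/
lemma exp_TT (ω : Fin r → ℝ) (H : ℕ) (y : ℝ) (k m : ℕ) :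
    ‖∑ p ∈ TT r H, e ((k : ℝ) * (m * (xx ω p + y)))‖ ≤
      H * ∑ q ∈ (Icc 1 H).filter (fun q => q ∣ k * m), √(FF ω H (k * m / q)) := by
  unfold TT
  rw [sum_sigma]
  refine (norm_sum_le _ _).trans ?_
  rw [mul_sum, sum_filter]
  refine sum_le_sum fun q hq => ?_
  rw [mem_Icc] at hq
  have h1 := one_q ω H y k m q (by omega)
  unfold xx
  rw [h1]
  split_ifs with h
  · have h2 : (q : ℝ) ≤ H := by exact_mod_cast hq.2
    exact mul_le_mul_of_nonneg_right h2 (Real.sqrt_nonneg _)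
  · exact le_rfl

/-- the mean square of the exponential sums -/
theorem mean_sq (ω : Fin r → ℝ) (H : ℕ) (hH : 1 ≤ H) (y : ℝ) (m R : ℕ) (hm : 0 < m) {τ1 Δ : ℝ} (hΔ : 0 < Δ)
    (hτ0 : 0 ≤ τ1)
    (hτ : ∀ k, 1 ≤ k → k ≤ R → (((k * m).divisors.card : ℕ) : ℝ) ≤ τ1)
    (hgap : ∀ u, u ∣ m → ∀ h ∈ box r H, ∀ h' ∈ box r H, h ≠ h' → ∀ p : ℤ,
      Δ ≤ |(u : ℝ) * lin ω h - u * lin ω h' - p|) :
    ∑ k ∈ Icc 1 R, ‖(((TT r H).card : ℝ)⁻¹) • ∑ p ∈ TT r H, e ((k : ℝ) * (m * (xx ω p + y)))‖ ^ 2 ≤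
      32 * τ1 * m.divisors.card * (R * (1 + Real.log (H + 1)) + H * (1 / Δ + 1)) / ((H : ℝ) ^ 2 * (2 * H + 1) ^ r) := by
  classical
  have hHR : (1 : ℝ) ≤ H := by exact_mod_cast hH
  obtain ⟨N, hN⟩ : ∃ N : ℝ, N = ((TT r H).card : ℝ) := ⟨_, rfl⟩
  obtain ⟨b, hb⟩ : ∃ b : ℝ, b = (2 * (H : ℝ) + 1) ^ r := ⟨_, rfl⟩
  have hb0 : 0 < b := by rw [hb]; positivity
  have hNlow : b * (H : ℝ) ^ 2 / 2 ≤ N := by
    rw [hN, card_TT, ← hb]
    have : (H : ℝ) ^ 2 ≤ H * (H + 1) := by nlinarith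
    have h2 := mul_le_mul_of_nonneg_left this hb0.le
    linarith
  have hN0 : 0 < N := lt_of_lt_of_le (by positivity) hNlow
  rw [← hN, ← hb]
  -- each term
  have hterm : ∀ k ∈ Icc 1 R, ‖(N⁻¹) • ∑ p ∈ TT r H, e ((k : ℝ) * (m * (xx ω p + y)))‖ ^ 2 ≤
      (N⁻¹) ^ 2 * ((H : ℝ) ^ 2 * (τ1 * ∑ q ∈ (Icc 1 H).filter (fun q => q ∣ k * m), FF ω H (k * m / q))) := by
    intro k hk
    rw [mem_Icc] at hk
    rw [norm_smul, Real.norm_eq_abs, abs_of_pos (inv_pos.2 hN0), mul_pow]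
    refine mul_le_mul_of_nonneg_left ?_ (sq_nonneg _)
    have h1 := exp_TT ω H y k m
    have h2 := pow_le_pow_left₀ (norm_nonneg _) h1 2
    refine h2.trans ?_
    rw [mul_pow]
    refine mul_le_mul_of_nonneg_left ?_ (sq_nonneg _)
    refine (sq_sum_le_card_mul_sum_sq).trans ?_
    have h3 : ∀ q ∈ (Icc 1 H).filter (fun q => q ∣ k * m), √(FF ω H (k * m / q)) ^ 2 = FF ω H (k * m / q) :=
      fun q _ => Real.sq_sqrt (FF_nonneg _ _ _)
    rw [sum_congr rfl h3]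
    refine mul_le_mul_of_nonneg_right ?_ (sum_nonneg fun _ _ => FF_nonneg _ _ _)
    refine le_trans ?_ (hτ k hk.1 hk.2)
    have h4 : (Icc 1 H).filter (fun q => q ∣ k * m) ⊆ (k * m).divisors := by
      intro q hq
      rw [mem_filter] at hq
      rw [Nat.mem_divisors]
      exact ⟨hq.2, Nat.mul_ne_zero (by omega) hm.ne'⟩
    exact_mod_cast card_le_card h4
  refine (sum_le_sum hterm).trans ?_
  rw [← mul_sum, ← mul_sum, ← mul_sum]
  have h1 := div_sum m H R hm (FF ω H) (FF_nonneg ω H)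
  -- the large sieve
  have h2 : ∀ e' ∈ m.divisors, ∑ t ∈ Icc 1 H, ∑ l ∈ Icc 1 (R / t), FF ω H (l * (m / e')) ≤
      8 * b * (R * (1 + Real.log (H + 1)) + H * (1 / Δ + 1)) := by
    intro e' he'
    rw [Nat.mem_divisors] at he'
    obtain ⟨u, hu⟩ := he'.1
    have hepos : 0 < e' := Nat.pos_of_dvd_of_pos he'.1 hm
    have hmu : m / e' = u := Nat.div_eq_of_eq_mul_right hepos hu
    rw [hmu]
    have h3 : ∀ t ∈ Icc 1 H, ∑ l ∈ Icc 1 (R / t), FF ω H (l * u) ≤ 8 * (R * (1 / t) + 1 / Δ + 1) * b := by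
      intro t ht
      rw [mem_Icc] at ht
      have h4 := ls' (box r H) (fun h => (u : ℝ) * lin ω h) hΔ (hgap u ⟨e', by rw [hu]; ring⟩) (R / t)
      have h5 : ∑ l ∈ Icc 1 (R / t), FF ω H (l * u) =
          ∑ l ∈ Icc 1 (R / t), ‖∑ x ∈ box r H, e ((l : ℝ) * ((u : ℝ) * lin ω x))‖ ^ 2 := by
        refine sum_congr rfl fun l _ => ?_
        unfold FF
        congr 2
        refine sum_congr rfl fun h _ => ?_
        congr 1
        push_cast
        ring
      rw [h5]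
      refine h4.trans ?_
      rw [card_box]
      push_cast
      rw [← hb]
      have h6 : ((R / t : ℕ) : ℝ) ≤ R * (1 / t) := by
        rw [mul_one_div]
        exact Nat.cast_div_le
      gcongr
    refine (sum_le_sum h3).trans ?_
    rw [← sum_mul, ← mul_sum]
    have h4 : ∑ t ∈ Icc 1 H, ((R : ℝ) * (1 / t) + 1 / Δ + 1) ≤ R * (1 + Real.log (H + 1)) + H * (1 / Δ + 1) := by
      have h5 : ∑ t ∈ Icc 1 H, ((R : ℝ) * (1 / t) + 1 / Δ + 1) = R * ∑ t ∈ Icc 1 H, (1 / (t : ℝ)) + H * (1 / Δ + 1) := by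
        rw [mul_sum]
        simp only [add_assoc]
        rw [sum_add_distrib]
        congr 1
        rw [sum_const, Nat.card_Icc, nsmul_eq_mul]
        push_cast
        ring
      rw [h5]
      have h6 : ∑ t ∈ Icc 1 H, (1 / (t : ℝ)) ≤ 1 + Real.log (H + 1) := by
        have h7 := harm_range (H + 1) (by omega)
        push_cast at h7
        refine le_trans (sum_le_sum_of_subset_of_nonneg ?_ fun _ _ _ => by positivity) h7
        intro t ht
        rw [mem_Icc] at ht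
        rw [mem_range]
        omega
      have : (0 : ℝ) ≤ R := Nat.cast_nonneg _
      gcongr
    calc 8 * (∑ t ∈ Icc 1 H, ((R : ℝ) * (1 / t) + 1 / Δ + 1)) * b
        ≤ 8 * (R * (1 + Real.log (H + 1)) + H * (1 / Δ + 1)) * b := by gcongr
      _ = _ := by ring
  have h3 := h1.trans (sum_le_sum h2)
  rw [sum_const, nsmul_eq_mul] at h3
  obtain ⟨Z, hZ⟩ : ∃ Z : ℝ, Z = R * (1 + Real.log (H + 1)) + H * (1 / Δ + 1) := ⟨_, rfl⟩
  have hZ0 : 0 ≤ Z := by
    rw [hZ]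
    have : 0 ≤ Real.log (H + 1) := Real.log_nonneg (by linarith)
    positivity
  rw [← hZ] at h3 ⊢
  have h4 : (N⁻¹) ^ 2 ≤ 4 / (b ^ 2 * (H : ℝ) ^ 4) := by
    have h5 : N⁻¹ ≤ 2 / (b * (H : ℝ) ^ 2) := by
      rw [inv_eq_one_div, div_le_div_iff₀ hN0 (by positivity)]
      linarith
    calc (N⁻¹) ^ 2 ≤ (2 / (b * (H : ℝ) ^ 2)) ^ 2 := pow_le_pow_left₀ (inv_nonneg.2 hN0.le) h5 2
      _ = _ := by rw [div_pow]; ring
  calc (N⁻¹) ^ 2 * ((H : ℝ) ^ 2 * (τ1 * ∑ k ∈ Icc 1 R, ∑ q ∈ (Icc 1 H).filter (fun q => q ∣ k * m), FF ω H (k * m / q)))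
      ≤ (4 / (b ^ 2 * (H : ℝ) ^ 4)) * ((H : ℝ) ^ 2 * (τ1 * (m.divisors.card * (8 * b * Z)))) := by
        refine mul_le_mul h4 ?_ ?_ (by positivity)
        · exact mul_le_mul_of_nonneg_left (mul_le_mul_of_nonneg_left h3 hτ0) (by positivity)
        · refine mul_nonneg (by positivity) (mul_nonneg hτ0 ?_)
          exact sum_nonneg fun _ _ => sum_nonneg fun _ _ => FF_nonneg _ _ _
    _ = _ := by
        field_simp
        ring

end Pool.Agent.W5h30.FX
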