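import Mathlib
import Pool.Agent.W5h30.FX.Fam

/-!
# The distinct elements: the formula of Möbius (helper30)
-/

set_option autoImplicit false
set_option linter.unusedVariables false

namespace Pool.Agent.W5h30.FX

open Finset

variable {r : ℕ}

/-- The elements in `[0, 1)` of height at most `H` of the space `ℚ + ℚ ω_1 + ... + ℚ ω_r`. -/
def Els (ω : Fin r → ℝ) (H : ℕ) : Set ℝ := {x | x ∈ Set.Ico (0 : ℝ) 1 ∧
  ∃ (q : ℕ) (a : ℤ) (h : Fin r → ℤ), 1 ≤ q ∧ q ≤ H ∧ (∀ j, |h j| ≤ H) ∧ (q : ℝ) * x = a + lin ω h}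

/-- the vectors -/
def ZC (ω : Fin r → ℝ) (H : ℕ) (z : ℕ × ℤ × (Fin r → ℤ)) : Prop :=
  (1 ≤ z.1 ∧ z.1 ≤ H) ∧ (∀ j, |z.2.2 j| ≤ H) ∧ 0 ≤ (z.2.1 : ℝ) + lin ω z.2.2 ∧ (z.2.1 : ℝ) + lin ω z.2.2 < z.1

/-- from indices to vectors -/
noncomputable def phi (ω : Fin r → ℝ) (p : Σ _ : ℕ, (Fin r → ℤ) × ℕ) : ℕ × ℤ × (Fin r → ℤ) :=
  (p.1, (p.2.2 : ℤ) - ⌊lin ω p.2.1⌋, p.2.1)

/-- the vectors -/
noncomputable def ZZ (ω : Fin r → ℝ) (H : ℕ) : Finset (ℕ × ℤ × (Fin r → ℤ)) := (TT r H).image (phi ω)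

/-- the value of a vector -/
noncomputable def val (ω : Fin r → ℝ) (z : ℕ × ℤ × (Fin r → ℤ)) : ℝ := ((z.2.1 : ℝ) + lin ω z.2.2) / z.1

/-- the greatest common divisor of a vector -/
def gg (z : ℕ × ℤ × (Fin r → ℤ)) : ℕ := Nat.gcd z.1 (Nat.gcd z.2.1.natAbs (univ.gcd fun j => (z.2.2 j).natAbs))

lemma phi_inj (ω : Fin r → ℝ) : Function.Injective (phi ω : (Σ _ : ℕ, (Fin r → ℤ) × ℕ) → _) := by
  rintro ⟨q, h, i⟩ ⟨q', h', i'⟩ hp
  unfold phi at hp
  simp only [Prod.mk.injEq] at hp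
  obtain ⟨rfl, h2, rfl⟩ := hp
  have : i = i' := by omega
  rw [this]

lemma val_phi (ω : Fin r → ℝ) (p : Σ _ : ℕ, (Fin r → ℤ) × ℕ) : val ω (phi ω p) = xx ω p := by
  unfold val phi xx
  simp only
  congr 1
  unfold Int.fract
  push_cast
  ring

lemma mem_ZZ (ω : Fin r → ℝ) (H : ℕ) (z : ℕ × ℤ × (Fin r → ℤ)) : z ∈ ZZ ω H ↔ ZC ω H z := by
  unfold ZZ TT
  rw [mem_image]
  constructor
  · rintro ⟨⟨q, h, i⟩, hp, rfl⟩
    rw [mem_sigma, mem_product, mem_range] at hp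
    obtain ⟨h1, h2, h3⟩ := hp
    simp only at h1 h2 h3
    unfold box at h2
    rw [Fintype.mem_piFinset] at h2
    rw [mem_Icc] at h1
    unfold ZC phi
    simp only
    refine ⟨h1, fun j => ?_, ?_, ?_⟩
    · have := mem_Icc.1 (h2 j)
      exact abs_le.2 this
    · have h4 := Int.fract_nonneg (lin ω h)
      unfold Int.fract at h4
      push_cast
      have h5 : (0 : ℝ) ≤ i := Nat.cast_nonneg _
      linarith
    · have h4 := Int.fract_lt_one (lin ω h)
      unfold Int.fract at h4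
      push_cast
      have h5 : (i : ℝ) + 1 ≤ q := by exact_mod_cast h3
      linarith
  · rintro ⟨h1, h2, h3, h4⟩
    obtain ⟨q, a, h⟩ := z
    simp only at h1 h2 h3 h4
    have hi0 : 0 ≤ a + ⌊lin ω h⌋ := by
      have h5 := Int.lt_floor_add_one (lin ω h)
      have h6 : (-1 : ℝ) < ((a + ⌊lin ω h⌋ : ℤ) : ℝ) := by
        push_cast
        linarith
      have h7 : (-1 : ℤ) < a + ⌊lin ω h⌋ := by exact_mod_cast h6
      omega
    refine ⟨⟨q, h, (a + ⌊lin ω h⌋).toNat⟩, ?_, ?_⟩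
    · rw [mem_sigma, mem_product, mem_range]
      refine ⟨mem_Icc.2 h1, ?_, ?_⟩
      · unfold box
        rw [Fintype.mem_piFinset]
        exact fun j => mem_Icc.2 (abs_le.1 (h2 j))
      · simp only
        have h5 := Int.floor_le (lin ω h)
        have h6 : ((a + ⌊lin ω h⌋ : ℤ) : ℝ) < ((q : ℤ) : ℝ) := by
          push_cast
          linarith
        have h7 : a + ⌊lin ω h⌋ < (q : ℤ) := by exact_mod_cast h6
        omega
    · unfold phi
      simp only [Int.toNat_of_nonneg hi0]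
      rw [add_sub_cancel_right]

lemma dvd_gg (z : ℕ × ℤ × (Fin r → ℤ)) (e : ℕ) : e ∣ gg z ↔
    e ∣ z.1 ∧ (e : ℤ) ∣ z.2.1 ∧ ∀ j, (e : ℤ) ∣ z.2.2 j := by
  unfold gg
  rw [Nat.dvd_gcd_iff, Nat.dvd_gcd_iff, Finset.dvd_gcd_iff]
  simp only [mem_univ, true_imp_iff]
  constructor
  · rintro ⟨h1, h2, h3⟩
    exact ⟨h1, Int.natCast_dvd.2 h2, fun j => Int.natCast_dvd.2 (h3 j)⟩
  · rintro ⟨h1, h2, h3⟩
    exact ⟨h1, Int.natCast_dvd.1 h2, fun j => Int.natCast_dvd.1 (h3 j)⟩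

/-- multiplication by `e` -/
def mu (e : ℕ) (z : ℕ × ℤ × (Fin r → ℤ)) : ℕ × ℤ × (Fin r → ℤ) := (e * z.1, e * z.2.1, fun j => e * z.2.2 j)

lemma lin_mul (ω : Fin r → ℝ) (e : ℕ) (h : Fin r → ℤ) : lin ω (fun j => (e : ℤ) * h j) = e * lin ω h := by
  unfold lin
  rw [mul_sum]
  refine sum_congr rfl fun j _ => ?_
  push_cast
  ring

lemma ZC_mu (ω : Fin r → ℝ) (H e : ℕ) (he : 1 ≤ e) (z : ℕ × ℤ × (Fin r → ℤ)) :
    ZC ω H (mu e z) ↔ ZC ω (H / e) z := by
  obtain ⟨q, a, h⟩ := z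
  unfold ZC mu
  simp only
  rw [lin_mul]
  have heR : (0 : ℝ) < e := by exact_mod_cast he
  push_cast
  have e1 : (e : ℝ) * a + e * lin ω h = e * (a + lin ω h) := by ring
  rw [e1]
  constructor
  · rintro ⟨⟨h1, h2⟩, h3, h4, h5⟩
    refine ⟨⟨?_, ?_⟩, fun j => ?_, ?_, ?_⟩
    · exact Nat.pos_of_mul_pos_left h1 |>.le |> fun _ => by
        rcases Nat.eq_zero_or_pos q with h | h
        · rw [h, mul_zero] at h1; omega
        · exact h
    · rw [Nat.le_div_iff_mul_le he, mul_comm]; exact h2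
    · have h6 := h3 j
      rw [abs_mul, Nat.abs_cast] at h6
      have h7 : (e * (h j).natAbs : ℕ) ≤ H := by
        have : ((e * (h j).natAbs : ℕ) : ℤ) ≤ H := by
          push_cast
          exact h6
        exact_mod_cast this
      have h8 : (h j).natAbs ≤ H / e := by
        rw [Nat.le_div_iff_mul_le he, mul_comm]; exact h7
      have h9 : (((h j).natAbs : ℕ) : ℤ) ≤ ((H / e : ℕ) : ℤ) := by exact_mod_cast h8
      rw [Int.natCast_natAbs] at h9
      exact_mod_cast h9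
    · by_contra hcon
      push Not at hcon
      have := mul_neg_of_pos_of_neg heR hcon
      linarith
    · exact lt_of_mul_lt_mul_left h5 heR.le
  · rintro ⟨⟨h1, h2⟩, h3, h4, h5⟩
    refine ⟨⟨?_, ?_⟩, fun j => ?_, ?_, ?_⟩
    · exact Nat.mul_pos he h1
    · rw [mul_comm]; exact (Nat.le_div_iff_mul_le he).1 h2
    · have h6 := h3 j
      rw [abs_mul, Nat.abs_cast]
      have h7 : (h j).natAbs ≤ H / e := by
        have : (((h j).natAbs : ℕ) : ℤ) ≤ ((H / e : ℕ) : ℤ) := by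
          rw [Int.natCast_natAbs]
          exact_mod_cast h6
        exact_mod_cast this
      have h8 := (Nat.le_div_iff_mul_le he).1 h7
      have h9 : ((e * (h j).natAbs : ℕ) : ℤ) ≤ (H : ℤ) := by
        rw [mul_comm]
        exact_mod_cast h8
      push_cast at h9
      exact h9
    · positivity
    · exact mul_lt_mul_of_pos_left h5 heR

lemma val_mu (ω : Fin r → ℝ) (e : ℕ) (he : 1 ≤ e) (z : ℕ × ℤ × (Fin r → ℤ)) : val ω (mu e z) = val ω z := by
  unfold val mu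
  simp only
  rw [lin_mul]
  have heR : (e : ℝ) ≠ 0 := by
    have : e ≠ 0 := by omega
    exact_mod_cast this
  push_cast
  rw [← mul_add, mul_div_mul_left _ _ heR]

lemma mu_inj (e : ℕ) (he : 1 ≤ e) : Function.Injective (mu e : (ℕ × ℤ × (Fin r → ℤ)) → _) := by
  rintro ⟨q, a, h⟩ ⟨q', a', h'⟩ hp
  unfold mu at hp
  simp only [Prod.mk.injEq] at hp
  obtain ⟨h1, h2, h3⟩ := hp
  have heZ : (e : ℤ) ≠ 0 := by
    have : e ≠ 0 := by omega
    exact_mod_cast this
  have e1 : q = q' := Nat.eq_of_mul_eq_mul_left (by omega) h1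
  have e2 : a = a' := mul_left_cancel₀ heZ h2
  have e3 : h = h' := by
    funext j
    exact mul_left_cancel₀ heZ (congrFun h3 j)
  rw [e1, e2, e3]

/-- the vectors divisible by `e` -/
lemma card_dvd (ω : Fin r → ℝ) (H e : ℕ) (he : 1 ≤ e) (P : ℝ → Prop) [DecidablePred P]
    [DecidablePred fun z : ℕ × ℤ × (Fin r → ℤ) => e ∣ gg z ∧ P (val ω z)] :
    ((ZZ ω H).filter (fun z => e ∣ gg z ∧ P (val ω z))).card =
      ((ZZ ω (H / e)).filter (fun z => P (val ω z))).card := by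
  classical
  rw [← card_image_of_injective ((ZZ ω (H / e)).filter (fun z => P (val ω z))) (mu_inj (r := r) e he)]
  congr 1
  ext z
  rw [mem_filter, mem_image]
  constructor
  · rintro ⟨h1, h2, h3⟩
    obtain ⟨h4, h5, h6⟩ := (dvd_gg z e).1 h2
    obtain ⟨q, a, h⟩ := z
    simp only at h4 h5 h6
    obtain ⟨q', rfl⟩ := h4
    obtain ⟨a', rfl⟩ := h5
    choose h' hh' using h6
    have e1 : ((e * q', (e : ℤ) * a', h) : ℕ × ℤ × (Fin r → ℤ)) = mu e (q', a', h') := by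
      unfold mu
      simp only
      congr 2
      funext j
      exact hh' j
    rw [e1] at h1 h3 ⊢
    refine ⟨(q', a', h'), ?_, rfl⟩
    rw [mem_filter, mem_ZZ, ← ZC_mu ω H e he, ← mem_ZZ]
    rw [val_mu ω e he] at h3
    exact ⟨h1, h3⟩
  · rintro ⟨z', hz', rfl⟩
    rw [mem_filter, mem_ZZ, ← ZC_mu ω H e he, ← mem_ZZ] at hz'
    refine ⟨hz'.1, ?_, ?_⟩
    · rw [dvd_gg]
      exact ⟨Dvd.intro _ rfl, Dvd.intro _ rfl, fun j => Dvd.intro _ rfl⟩
    · rw [val_mu ω e he]; exact hz'.2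

lemma card_ZZ_filter (ω : Fin r → ℝ) (H : ℕ) (P : ℝ → Prop) [DecidablePred P] :
    ((ZZ ω H).filter (fun z => P (val ω z))).card = ((TT r H).filter (fun p => P (xx ω p))).card := by
  classical
  rw [← card_image_of_injective _ (phi_inj ω)]
  congr 1
  ext z
  unfold ZZ
  rw [mem_filter, mem_image, mem_image]
  constructor
  · rintro ⟨⟨p, hp, rfl⟩, h⟩
    rw [val_phi] at h
    exact ⟨p, mem_filter.2 ⟨hp, h⟩, rfl⟩
  · rintro ⟨p, hp, rfl⟩
    rw [mem_filter] at hp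
    exact ⟨⟨p, hp.1, rfl⟩, by rw [val_phi]; exact hp.2⟩

lemma gg_pos {ω : Fin r → ℝ} {H : ℕ} {z : ℕ × ℤ × (Fin r → ℤ)} (hz : z ∈ ZZ ω H) : 1 ≤ gg z ∧ gg z ≤ H := by
  rw [mem_ZZ] at hz
  have h1 : gg z ∣ z.1 := Nat.gcd_dvd_left _ _
  constructor
  · exact Nat.pos_of_dvd_of_pos h1 hz.1.1
  · exact (Nat.le_of_dvd hz.1.1 h1).trans hz.1.2

/-- the elements correspond to the primitive vectors -/
theorem prim_card (ω : Fin r → ℝ)
    (hind : ∀ (c : Fin r → ℚ) (c0 : ℚ), ∑ j, (c j : ℝ) * ω j + c0 = 0 → c = 0) (H : ℕ) (P : ℝ → Prop)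
    [DecidablePred P] [DecidablePred fun z : ℕ × ℤ × (Fin r → ℤ) => gg z = 1 ∧ P (val ω z)] :
    {x | x ∈ Els ω H ∧ P x}.ncard = ((ZZ ω H).filter (fun z => gg z = 1 ∧ P (val ω z))).card := by
  classical
  have hinj : Set.InjOn (val ω) ((ZZ ω H).filter (fun z => gg z = 1 ∧ P (val ω z)) : Finset _) := by
    intro z hz z' hz' hzz
    rw [mem_coe, mem_filter, mem_ZZ] at hz hz'
    obtain ⟨q, a, h⟩ := z
    obtain ⟨q', a', h'⟩ := z'
    obtain ⟨⟨⟨hq1, _⟩, _, _, _⟩, hg, _⟩ := hz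
    obtain ⟨⟨⟨hq'1, _⟩, _, _, _⟩, hg', _⟩ := hz'
    simp only at hq1 hq'1
    have hqR : (0 : ℝ) < q := by exact_mod_cast hq1
    have hq'R : (0 : ℝ) < q' := by exact_mod_cast hq'1
    unfold val at hzz
    simp only at hzz
    rw [div_eq_div_iff hqR.ne' hq'R.ne'] at hzz
    have h1 : ∑ j, (((q' * h j - q * h' j : ℤ) : ℚ) : ℝ) * ω j + (((q' * a - q * a' : ℤ) : ℚ) : ℝ) = 0 := by
      have h2 : ∑ j, (((q' * h j - q * h' j : ℤ) : ℚ) : ℝ) * ω j = q' * lin ω h - q * lin ω h' := by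
        unfold lin
        rw [mul_sum, mul_sum, ← sum_sub_distrib]
        refine sum_congr rfl fun j _ => ?_
        push_cast
        ring
      rw [h2]
      push_cast
      linarith
    have h2 := hind _ _ h1
    have h3 : ∀ j, (q' : ℤ) * h j = q * h' j := by
      intro j
      have h4 := congrFun h2 j
      simp only [Pi.zero_apply] at h4
      have h5 : (q' : ℤ) * h j - q * h' j = 0 := by exact_mod_cast h4
      linarith
    have h4 : (q' : ℤ) * a = q * a' := by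
      have h6 : ∑ j, (((q' * h j - q * h' j : ℤ) : ℚ) : ℝ) * ω j = 0 := by
        refine sum_eq_zero fun j _ => ?_
        rw [show (q' * h j - q * h' j : ℤ) = 0 by linarith [h3 j]]
        simp
      rw [h6, zero_add] at h1
      have h5 : (q' : ℤ) * a - q * a' = 0 := by exact_mod_cast h1
      linarith
    -- `q` divides `q'` and conversely
    have key : ∀ (u v : ℕ) (c c' : ℤ) (g g' : Fin r → ℤ), 1 ≤ v → gg ((u, c, g) : ℕ × ℤ × (Fin r → ℤ)) = 1 →
        (v : ℤ) * c = u * c' → (∀ j, (v : ℤ) * g j = u * g' j) → u ∣ v := by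
      intro u v c c' g g' hv hgu hc hgj
      have h5 : u ∣ gg (mu v (u, c, g)) := by
        rw [dvd_gg]
        unfold mu
        simp only
        exact ⟨Dvd.intro_left _ rfl, ⟨c', hc⟩, fun j => ⟨g' j, hgj j⟩⟩
      have h6 : gg (mu v (u, c, g)) = v := by
        unfold gg mu at *
        simp only at *
        simp only [Int.natAbs_mul, Int.natAbs_natCast]
        rw [Finset.gcd_mul_left, normalize_eq, Nat.gcd_mul_left, Nat.gcd_mul_left, hgu, mul_one]
      rwa [h6] at h5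
    have h5 : q ∣ q' := key q q' a a' h h' hq'1 hg h4 h3
    have h6 : q' ∣ q := key q' q a' a h' h hq1 hg' h4.symm fun j => (h3 j).symm
    have h7 : q = q' := Nat.dvd_antisymm h5 h6
    subst h7
    have hqZ : (q : ℤ) ≠ 0 := by
      have : q ≠ 0 := by omega
      exact_mod_cast this
    have h8 : a = a' := mul_left_cancel₀ hqZ h4
    have h9 : h = h' := funext fun j => mul_left_cancel₀ hqZ (h3 j)
    rw [h8, h9]
  rw [← card_image_of_injOn hinj, ← Set.ncard_coe_finset]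
  congr 1
  ext x
  rw [mem_coe, mem_image]
  constructor
  · rintro ⟨⟨hx01, q, a, h, hq1, hqH, hh, hx⟩, hPx⟩
    -- a representation with smallest denominator
    have hex : ∃ q : ℕ, ∃ (a : ℤ) (h : Fin r → ℤ), (q, a, h) ∈ ZZ ω H ∧ val ω (q, a, h) = x := by
      refine ⟨q, a, h, ?_, ?_⟩
      · rw [mem_ZZ]
        refine ⟨⟨hq1, hqH⟩, hh, ?_, ?_⟩
        · simp only
          rw [← hx]
          have := hx01.1
          positivity
        · simp only
          rw [← hx]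
          have h1 : (1 : ℝ) ≤ q := by exact_mod_cast hq1
          nlinarith [hx01.2]
      · unfold val
        simp only
        rw [← hx]
        have h1 : (1 : ℝ) ≤ q := by exact_mod_cast hq1
        field_simp
    obtain ⟨a0, h0, hz0, hv0⟩ := Nat.find_spec hex
    have hmin := fun q' hq' => Nat.find_min hex (m := q') hq'
    obtain ⟨q0, hq0⟩ : ∃ q0 : ℕ, q0 = Nat.find hex := ⟨_, rfl⟩
    rw [← hq0] at hz0 hv0 hmin
    refine ⟨(q0, a0, h0), ?_, hv0⟩
    rw [mem_filter]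
    refine ⟨hz0, ?_, by rw [hv0]; exact hPx⟩
    by_contra hne
    have hg1 := gg_pos hz0
    obtain ⟨e, he⟩ : ∃ e : ℕ, e = gg ((q0, a0, h0) : ℕ × ℤ × (Fin r → ℤ)) := ⟨_, rfl⟩
    rw [← he] at hne hg1
    have he2 : 2 ≤ e := by omega
    obtain ⟨h4, h5, h6⟩ := (dvd_gg ((q0, a0, h0) : ℕ × ℤ × (Fin r → ℤ)) e).1 (by rw [he])
    simp only at h4 h5 h6
    obtain ⟨q', hq'⟩ := h4
    obtain ⟨a', ha'⟩ := h5
    choose h' hh' using h6
    have e1 : ((q0, a0, h0) : ℕ × ℤ × (Fin r → ℤ)) = mu e (q', a', h') := by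
      unfold mu
      simp only
      rw [← hq', ← ha']
      congr 2
      funext j
      exact hh' j
    have hq'pos : 1 ≤ q' := by
      have h7 := (mem_ZZ ω H _).1 hz0
      have h8 := h7.1.1
      simp only at h8
      rcases Nat.eq_zero_or_pos q' with h9 | h9
      · rw [h9, mul_zero] at hq'
        omega
      · exact h9
    refine hmin q' (by rw [hq']; nlinarith) ⟨a', h', ?_, ?_⟩
    · rw [mem_ZZ]
      have h7 := (mem_ZZ ω H _).1 hz0
      rw [e1, ZC_mu ω H e (by omega)] at h7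
      obtain ⟨⟨f1, f2⟩, f3, f4, f5⟩ := h7
      have hle : H / e ≤ H := Nat.div_le_self _ _
      refine ⟨⟨f1, f2.trans hle⟩, fun j => (f3 j).trans (by exact_mod_cast hle), f4, f5⟩
    · rw [e1, val_mu ω e (by omega)] at hv0
      exact hv0
  · rintro ⟨z, hz, rfl⟩
    rw [mem_filter, mem_ZZ] at hz
    obtain ⟨⟨⟨h1, h2⟩, h3, h4, h5⟩, _, h6⟩ := hz
    have hqR : (0 : ℝ) < z.1 := by exact_mod_cast h1
    refine ⟨⟨⟨?_, ?_⟩, z.1, z.2.1, z.2.2, h1, h2, h3, ?_⟩, h6⟩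
    · unfold val; positivity
    · unfold val; rw [div_lt_one hqR]; exact h5
    · unfold val; field_simp

/-- **the formula of Möbius** -/
theorem mob (ω : Fin r → ℝ)
    (hind : ∀ (c : Fin r → ℚ) (c0 : ℚ), ∑ j, (c j : ℝ) * ω j + c0 = 0 → c = 0) (H : ℕ) (P : ℝ → Prop)
    [DecidablePred P] :
    ({x | x ∈ Els ω H ∧ P x}.ncard : ℝ) = ∑ e ∈ Icc 1 H, ((ArithmeticFunction.moebius e : ℤ) : ℝ) *
      (((TT r (H / e)).filter (fun p => P (xx ω p))).card : ℝ) := by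
  classical
  rw [prim_card ω hind H P]
  have h1 : ∀ z ∈ ZZ ω H, ∑ e ∈ (Icc 1 H).filter (fun e => e ∣ gg z), ((ArithmeticFunction.moebius e : ℤ) : ℝ) =
      if gg z = 1 then 1 else 0 := by
    intro z hz
    obtain ⟨h2, h3⟩ := gg_pos hz
    have h4 : (Icc 1 H).filter (fun e => e ∣ gg z) = (gg z).divisors := by
      ext e
      rw [mem_filter, mem_Icc, Nat.mem_divisors]
      constructor
      · rintro ⟨_, h⟩
        exact ⟨h, by omega⟩
      · rintro ⟨h, _⟩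
        exact ⟨⟨Nat.pos_of_dvd_of_pos h h2, (Nat.le_of_dvd h2 h).trans h3⟩, h⟩
    rw [h4]
    have h5 := congrArg (fun F : ArithmeticFunction ℤ => F (gg z)) ArithmeticFunction.moebius_mul_coe_zeta
    simp only [ArithmeticFunction.coe_mul_zeta_apply, ArithmeticFunction.one_apply] at h5
    have h6 : ((∑ e ∈ (gg z).divisors, ArithmeticFunction.moebius e : ℤ) : ℝ) =
        ((if gg z = 1 then (1 : ℤ) else 0 : ℤ) : ℝ) := by rw [h5]
    push_cast at h6
    rw [h6]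
  have h2 : (((ZZ ω H).filter (fun z => gg z = 1 ∧ P (val ω z))).card : ℝ) =
      ∑ z ∈ (ZZ ω H).filter (fun z => P (val ω z)), if gg z = 1 then (1 : ℝ) else 0 := by
    rw [← sum_filter, filter_filter, sum_const, nsmul_eq_mul, mul_one]
    congr 2
    ext z
    simp only [mem_filter]
    tauto
  rw [h2]
  have h3 : ∑ z ∈ (ZZ ω H).filter (fun z => P (val ω z)), (if gg z = 1 then (1 : ℝ) else 0) =
      ∑ z ∈ (ZZ ω H).filter (fun z => P (val ω z)), ∑ e ∈ Icc 1 H,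
        if e ∣ gg z then ((ArithmeticFunction.moebius e : ℤ) : ℝ) else 0 := by
    refine sum_congr rfl fun z hz => ?_
    rw [← h1 z (mem_filter.1 hz).1, sum_filter]
  rw [h3, sum_comm]
  refine sum_congr rfl fun e he => ?_
  rw [mem_Icc] at he
  rw [← sum_filter, sum_const, nsmul_eq_mul, mul_comm]
  congr 1
  rw [← card_ZZ_filter ω (H / e) P, ← card_dvd ω H e he.1 P]
  congr 2
  ext z
  simp only [mem_filter]
  tauto

end Pool.Agent.W5h30.FX
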