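import Mathlib
import Pool.Agent.W5h30.MU.AlgMult
import Pool.Agent.W5h30.FX.Fam

/-!
# Spacing of the multiples of the elements of a space of algebraic numbers (helper30)
-/

set_option autoImplicit false
set_option linter.unusedVariables false

namespace Pool.Agent.W5h30.FX

open Finset Filter Topology
open Pool.Agent.W5h30.MU (ev_rpow' forms sz sz_pos one_le_sz abs_le_sz)

variable {r : ℕ}

theorem gap (ω : Fin r → ℝ) (halg : ∀ j, IsAlgebraic ℚ (ω j))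
    (hind : ∀ (c : Fin r → ℚ) (c0 : ℚ), ∑ j, (c j : ℝ) * ω j + c0 = 0 → c = 0) (B : ℕ) (hB : 2 ≤ B)
    (A δ : ℝ) (hδ : 0 < δ) : ∀ᶠ H : ℕ in atTop, ∀ b s u : ℕ, 2 ≤ b → b ≤ B → (s : ℝ) ≤ A * Real.log H →
      u ∣ b ^ s → ∀ h ∈ box r H, ∀ h' ∈ box r H, h ≠ h' → ∀ p : ℤ,
      (H : ℝ) ^ (-((r : ℝ) + δ)) ≤ |(u : ℝ) * lin ω h - u * lin ω h' - p| := by
  classical
  obtain ⟨b0, hb0⟩ : ∃ b0 : ℕ, b0 = B.factorial := ⟨_, rfl⟩
  have hb02 : 2 ≤ b0 := by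
    rw [hb0]
    calc 2 = Nat.factorial 2 := rfl
      _ ≤ B.factorial := Nat.factorial_le hB
  have hb0R : (2 : ℝ) ≤ b0 := by exact_mod_cast hb02
  have hb0pos : (0 : ℝ) < b0 := by linarith
  have hlb : 0 < Real.log b0 := Real.log_pos (by linarith)
  obtain ⟨A1, hA1⟩ : ∃ A1 : ℕ, A1 = ⌈|A| * Real.log b0⌉₊ := ⟨_, rfl⟩
  obtain ⟨S, hS⟩ : ∃ S : ℝ, S = ∑ i, |ω i| := ⟨_, rfl⟩
  have hS0 : 0 ≤ S := by rw [hS]; exact sum_nonneg fun _ _ => abs_nonneg _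
  have hforms := forms b0 hb02 (A1 + 4) (δ / 2) (by positivity) r (Fin.snoc ω (-1)) (fun j => by
    refine Fin.lastCases ?_ (fun i => ?_) j
    · rw [Fin.snoc_last]
      exact isAlgebraic_one.neg
    · rw [Fin.snoc_castSucc]
      exact halg i)
  obtain ⟨N0, hN0⟩ := Filter.eventually_atTop.1 hforms
  filter_upwards [ev_rpow' ((b0 : ℝ) ^ (δ / 2) * 2 ^ r) (δ / 2) (by positivity),
    eventually_ge_atTop (b0 ^ N0 + 1), eventually_ge_atTop 2, eventually_ge_atTop (⌈S + 2⌉₊)] with H h1 h3 h4 h5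
  intro b s u hb hbB hs hu h hh h' hh' hne p
  have hH2 : (2 : ℝ) ≤ H := by exact_mod_cast h4
  have hH0 : (0 : ℝ) < H := by linarith
  have hH1 : (1 : ℝ) ≤ H := by linarith
  -- the index
  obtain ⟨N, hN⟩ : ∃ N : ℕ, N = Nat.clog b0 H := ⟨_, rfl⟩
  have hMN : H ≤ b0 ^ N := by rw [hN]; exact Nat.le_pow_clog (by omega) _
  have hMNR : (H : ℝ) ≤ (b0 : ℝ) ^ N := by exact_mod_cast hMN
  have hNM : b0 ^ N ≤ b0 * H := by
    have h6 : b0 ^ (N - 1) < H := by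
      rw [hN]
      exact Nat.pow_pred_clog_lt_self (by omega) (by omega)
    have hNpos : 0 < N := by
      rw [hN]
      exact Nat.clog_pos (by omega) (by omega)
    calc b0 ^ N = b0 * b0 ^ (N - 1) := by
          rw [← pow_succ']
          congr 1
          omega
      _ ≤ b0 * H := Nat.mul_le_mul_left _ h6.le
  have hNMR : (b0 : ℝ) ^ N ≤ b0 * H := by exact_mod_cast hNM
  have hNge : N0 ≤ N := by
    by_contra hcon
    push Not at hcon
    have h6 : b0 ^ N ≤ b0 ^ N0 := Nat.pow_le_pow_right (by omega) hcon.le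
    omega
  have hLB := hN0 N hNge
  have hlogH : Real.log H ≤ N * Real.log b0 := by
    rw [← Real.log_pow]
    exact Real.log_le_log hH0 hMNR
  have hlogH0 : 0 ≤ Real.log H := Real.log_nonneg hH1
  have hsN : s ≤ A1 * N := by
    have h6 : (s : ℝ) ≤ A1 * N := by
      calc (s : ℝ) ≤ A * Real.log H := hs
        _ ≤ |A| * Real.log H := mul_le_mul_of_nonneg_right (le_abs_self A) hlogH0
        _ ≤ |A| * (N * Real.log b0) := mul_le_mul_of_nonneg_left hlogH (abs_nonneg _)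
        _ = (|A| * Real.log b0) * N := by ring
        _ ≤ A1 * N := by
            refine mul_le_mul_of_nonneg_right ?_ (Nat.cast_nonneg _)
            rw [hA1]
            exact Nat.le_ceil _
    exact_mod_cast h6
  have hdvd : u ∣ b0 ^ (A1 * N) := by
    have h6 : b ∣ b0 := by
      rw [hb0]
      exact Nat.dvd_factorial (by omega) hbB
    exact hu.trans ((pow_dvd_pow_of_dvd h6 _).trans (pow_dvd_pow _ hsN))
  have hu0 : 0 < u := Nat.pos_of_dvd_of_pos hdvd (pow_pos (by omega) _)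
  have huR : (u : ℝ) ≤ (b0 : ℝ) ^ (A1 * N) := by
    exact_mod_cast Nat.le_of_dvd (pow_pos (by omega) _) hdvd
  have hu1 : (1 : ℝ) ≤ u := by exact_mod_cast hu0
  -- the coefficients
  obtain ⟨k, hk⟩ : ∃ k : Fin r → ℤ, k = h - h' := ⟨_, rfl⟩
  have hk0 : k ≠ 0 := by rw [hk]; exact sub_ne_zero.2 hne
  have hkle : ∀ j, |(k j : ℝ)| ≤ 2 * H := by
    intro j
    unfold box at hh hh'
    rw [Fintype.mem_piFinset] at hh hh'
    have e1 := mem_Icc.1 (hh j)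
    have e2 := mem_Icc.1 (hh' j)
    have e3 : |k j| ≤ 2 * H := by
      rw [hk, abs_le]
      simp only [Pi.sub_apply]
      constructor <;> linarith [e1.1, e1.2, e2.1, e2.2]
    exact_mod_cast e3
  have hlin : (u : ℝ) * lin ω h - u * lin ω h' = u * ∑ j, (k j : ℝ) * ω j := by
    unfold lin
    rw [hk, ← mul_sub, ← sum_sub_distrib]
    congr 1
    refine sum_congr rfl fun j _ => ?_
    simp only [Pi.sub_apply]
    push_cast
    ring
  rw [hlin]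
  have hone : (H : ℝ) ^ (-((r : ℝ) + δ)) ≤ 1 :=
    Real.rpow_le_one_of_one_le_of_nonpos hH1 (by
      have : (0 : ℝ) ≤ r := Nat.cast_nonneg _
      linarith)
  by_cases hbig : 1 ≤ |(u : ℝ) * ∑ j, (k j : ℝ) * ω j - p|
  · exact hone.trans hbig
  push Not at hbig
  have hkN : ∀ i, |(k i : ℝ)| ≤ (b0 : ℝ) ^ (2 * N) := by
    intro i
    refine (hkle i).trans ?_
    calc 2 * (H : ℝ) ≤ H * H := by nlinarith
      _ ≤ (b0 : ℝ) ^ N * (b0 : ℝ) ^ N := by gcongr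
      _ = _ := by rw [← pow_add]; congr 1; ring
  -- size of `p`
  have hp : |(p : ℝ)| ≤ (b0 : ℝ) ^ ((A1 + 4) * N) := by
    have h6 : |(p : ℝ)| ≤ |(u : ℝ) * ∑ j, (k j : ℝ) * ω j| + 1 := by
      have h7 : (p : ℝ) = (u : ℝ) * ∑ j, (k j : ℝ) * ω j - ((u : ℝ) * ∑ j, (k j : ℝ) * ω j - p) := by ring
      rw [h7]
      refine (abs_sub _ _).trans ?_
      linarith
    have h8 : |(u : ℝ) * ∑ j, (k j : ℝ) * ω j| ≤ (b0 : ℝ) ^ (A1 * N) * ((b0 : ℝ) ^ (2 * N) * S) := by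
      rw [abs_mul, Nat.abs_cast]
      refine mul_le_mul huR ?_ (abs_nonneg _) (by positivity)
      refine (Finset.abs_sum_le_sum_abs _ _).trans ?_
      rw [hS, mul_sum]
      refine sum_le_sum fun i _ => ?_
      rw [abs_mul]
      exact mul_le_mul_of_nonneg_right (hkN i) (abs_nonneg _)
    have h9 : S + 2 ≤ (b0 : ℝ) ^ N := by
      have : S + 2 ≤ H := (Nat.le_ceil _).trans (by exact_mod_cast h5)
      linarith
    have h10 : (1 : ℝ) ≤ (b0 : ℝ) ^ (A1 * N) * (b0 : ℝ) ^ (2 * N) := by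
      have e1 : (1 : ℝ) ≤ (b0 : ℝ) ^ (2 * N) := one_le_pow₀ (by linarith)
      have e2 : (1 : ℝ) ≤ (b0 : ℝ) ^ (A1 * N) := one_le_pow₀ (by linarith)
      nlinarith
    calc |(p : ℝ)| ≤ (b0 : ℝ) ^ (A1 * N) * (b0 : ℝ) ^ (2 * N) * S + 1 := by linarith
      _ ≤ (b0 : ℝ) ^ (A1 * N) * (b0 : ℝ) ^ (2 * N) * (S + 2) := by nlinarith
      _ ≤ (b0 : ℝ) ^ (A1 * N) * (b0 : ℝ) ^ (2 * N) * (b0 : ℝ) ^ N := by gcongr
      _ = (b0 : ℝ) ^ ((A1 + 3) * N) := by rw [← pow_add, ← pow_add]; congr 1; ring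
      _ ≤ _ := pow_le_pow_right₀ (by linarith) (Nat.mul_le_mul_right _ (by omega))
  have hsumeq : ∑ j, (Fin.snoc ω (-1) : Fin (r + 1) → ℝ) j *
      ((((Fin.snoc k p : Fin (r + 1) → ℤ) j : ℤ) : ℝ) * ((Fin.snoc (fun _ => u) 1 : Fin (r + 1) → ℕ) j : ℕ)) =
      (u : ℝ) * ∑ j, (k j : ℝ) * ω j - p := by
    rw [Fin.sum_univ_castSucc]
    simp only [Fin.snoc_castSucc, Fin.snoc_last]
    push_cast
    rw [sub_eq_add_neg, mul_sum]
    congr 1
    · refine sum_congr rfl fun i _ => ?_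
      ring
    · ring
  have hne' : (u : ℝ) * ∑ j, (k j : ℝ) * ω j - p ≠ 0 := by
    intro h0
    have h6 := hind (fun j => ((u * k j : ℤ) : ℚ)) (-(p : ℚ)) (by
      push_cast
      rw [mul_sum] at h0
      have h7 : ∑ j, (u : ℝ) * k j * ω j = ∑ j, (u : ℝ) * ((k j : ℝ) * ω j) :=
        sum_congr rfl fun j _ => by ring
      rw [h7]
      linarith)
    apply hk0
    funext j
    have h7 := congrFun h6 j
    simp only [Pi.zero_apply] at h7
    have h8 : (u : ℤ) * k j = 0 := by exact_mod_cast h7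
    rcases mul_eq_zero.1 h8 with h9 | h9
    · exfalso
      have : u = 0 := by exact_mod_cast h9
      omega
    · exact h9
  have hfin := hLB (Fin.snoc k p) (Fin.snoc (fun _ => u) 1) (fun j => by
      refine Fin.lastCases ?_ (fun i => ?_) j
      · rw [Fin.snoc_last]; exact one_dvd _
      · rw [Fin.snoc_castSucc]
        exact hdvd.trans (pow_dvd_pow _ (Nat.mul_le_mul_right _ (by omega)))) (fun j => by
      refine Fin.lastCases ?_ (fun i => ?_) j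
      · rw [Fin.snoc_last]; exact hp
      · rw [Fin.snoc_castSucc]
        refine (hkN i).trans (pow_le_pow_right₀ (by linarith) (Nat.mul_le_mul_right _ (by omega))))
    (by rw [hsumeq]; exact hne')
  rw [hsumeq] at hfin
  simp only [Fin.snoc_castSucc] at hfin
  refine le_trans ?_ hfin
  have hszprod : ∏ j : Fin r, sz (k j) ≤ (2 * H) ^ r := by
    have h6 : ∏ j : Fin r, sz (k j) ≤ ∏ _j : Fin r, (2 * (H : ℝ)) := by
      refine prod_le_prod (fun _ _ => (sz_pos _).le) fun j _ => ?_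
      exact max_le (by linarith) (hkle j)
    rw [prod_const, card_univ, Fintype.card_fin] at h6
    exact h6
  have hszpos : 0 < ∏ j : Fin r, sz (k j) := prod_pos fun _ _ => sz_pos _
  have hbN : ((b0 : ℝ) * H) ^ (-(δ / 2)) ≤ (b0 : ℝ) ^ (-(δ / 2 * N)) := by
    have h6 : (b0 : ℝ) ^ (-(δ / 2 * N)) = ((b0 : ℝ) ^ N) ^ (-(δ / 2)) := by
      rw [← Real.rpow_natCast, ← Real.rpow_mul hb0pos.le]
      congr 1
      ring
    rw [h6]
    exact Real.rpow_le_rpow_of_nonpos (by positivity) hNMR (by linarith)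
  have hlow : ((b0 : ℝ) * H) ^ (-(δ / 2)) / (2 * H) ^ r ≤ (b0 : ℝ) ^ (-(δ / 2 * N)) / ∏ j : Fin r, sz (k j) :=
    div_le_div₀ (by positivity) hbN hszpos hszprod
  refine le_trans ?_ hlow
  rw [le_div_iff₀ (by positivity)]
  have e1 : (H : ℝ) ^ (-((r : ℝ) + δ)) * (2 * H) ^ r = 2 ^ r * (H : ℝ) ^ (-δ) := by
    rw [mul_pow, ← Real.rpow_natCast (H : ℝ) r]
    have e2 : (H : ℝ) ^ (-((r : ℝ) + δ)) * (H : ℝ) ^ (r : ℝ) = (H : ℝ) ^ (-δ) := by
      rw [← Real.rpow_add hH0]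
      congr 1
      ring
    calc (H : ℝ) ^ (-((r : ℝ) + δ)) * (2 ^ r * (H : ℝ) ^ (r : ℝ)) =
        2 ^ r * ((H : ℝ) ^ (-((r : ℝ) + δ)) * (H : ℝ) ^ (r : ℝ)) := by ring
      _ = _ := by rw [e2]
  rw [e1, Real.mul_rpow hb0pos.le hH0.le]
  have e3 : (b0 : ℝ) ^ (-(δ / 2)) * (b0 : ℝ) ^ (δ / 2) = 1 := by
    rw [← Real.rpow_add hb0pos]; simp
  have e4 : (H : ℝ) ^ (-δ) = (H : ℝ) ^ (-(δ / 2)) * (H : ℝ) ^ (-(δ / 2)) := by
    rw [← Real.rpow_add hH0]; congr 1; ring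
  have e5 : (H : ℝ) ^ (-(δ / 2)) * (H : ℝ) ^ (δ / 2) = 1 := by
    rw [← Real.rpow_add hH0]; simp
  have e6 : 2 ^ r * (H : ℝ) ^ (-(δ / 2)) ≤ (b0 : ℝ) ^ (-(δ / 2)) := by
    have e7 : (0 : ℝ) < (b0 : ℝ) ^ (-(δ / 2)) := by positivity
    have e8 : (0 : ℝ) < (H : ℝ) ^ (-(δ / 2)) := by positivity
    calc 2 ^ r * (H : ℝ) ^ (-(δ / 2)) = ((b0 : ℝ) ^ (-(δ / 2)) * (b0 : ℝ) ^ (δ / 2)) * (2 ^ r * (H : ℝ) ^ (-(δ / 2))) := by
          rw [e3, one_mul]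
      _ = (b0 : ℝ) ^ (-(δ / 2)) * (((b0 : ℝ) ^ (δ / 2) * 2 ^ r) * (H : ℝ) ^ (-(δ / 2))) := by ring
      _ ≤ (b0 : ℝ) ^ (-(δ / 2)) * ((H : ℝ) ^ (δ / 2) * (H : ℝ) ^ (-(δ / 2))) := by gcongr
      _ = (b0 : ℝ) ^ (-(δ / 2)) := by rw [mul_comm ((H : ℝ) ^ (δ / 2)), e5, mul_one]
  calc 2 ^ r * (H : ℝ) ^ (-δ) = (2 ^ r * (H : ℝ) ^ (-(δ / 2))) * (H : ℝ) ^ (-(δ / 2)) := by rw [e4]; ring
    _ ≤ (b0 : ℝ) ^ (-(δ / 2)) * (H : ℝ) ^ (-(δ / 2)) := by gcongr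

end Pool.Agent.W5h30.FX
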