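import Mathlib
import Pool.Agent.W5h30.FX.Gap
import Pool.Agent.H353R2.Z2

/-!
# The law of the digits over the index set (helper30)
-/

set_option autoImplicit false
set_option linter.unusedVariables false

namespace Pool.Agent.W5h30.FX

open Finset Filter Topology
open Pool.Agent.W5h30.MU (ev_rpow')
open Pool.Agent.W5h30.SM (cell)

variable {r : ℕ}

lemma ev_log' (τ : ℝ) (hτ0 : 0 < τ) : ∀ᶠ H : ℕ in atTop, 1 + Real.log ((H : ℝ) + 1) ≤ (H : ℝ) ^ τ := by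
  have h1 : ∀ᶠ H : ℕ in atTop, 2 * Real.log H ≤ (H : ℝ) ^ (τ / 2) := by
    have h2 := isLittleO_log_rpow_atTop (r := τ / 2) (by positivity)
    have h3 := h2.bound (c := 1 / 2) (by positivity)
    have h4 := (tendsto_natCast_atTop_atTop (R := ℝ)).eventually h3
    filter_upwards [h4] with H h5
    rw [Real.norm_eq_abs, Real.norm_eq_abs, abs_of_nonneg (Real.log_natCast_nonneg H),
      abs_of_nonneg (by positivity)] at h5
    linarith
  filter_upwards [h1, eventually_ge_atTop 2, ev_rpow' 2 (τ / 2) (by positivity)] with H h2 h3 h4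
  have hH2 : (2 : ℝ) ≤ H := by exact_mod_cast h3
  have hHpos : (0 : ℝ) < H := by linarith
  have h5 : Real.log ((H : ℝ) + 1) ≤ 2 * Real.log H := by
    rw [show 2 * Real.log (H : ℝ) = Real.log ((H : ℝ) ^ 2) by rw [Real.log_pow]; norm_num]
    apply Real.log_le_log (by positivity)
    nlinarith
  have h6 : (H : ℝ) ^ τ = (H : ℝ) ^ (τ / 2) * (H : ℝ) ^ (τ / 2) := by
    rw [← Real.rpow_add hHpos]; congr 1; ring
  rw [h6]
  have h7 : (0 : ℝ) < (H : ℝ) ^ (τ / 2) := by positivity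
  nlinarith

theorem tuple_law (ω : Fin r → ℝ) (halg : ∀ j, IsAlgebraic ℚ (ω j))
    (hind : ∀ (c : Fin r → ℚ) (c0 : ℚ), ∑ j, (c j : ℝ) * ω j + c0 = 0 → c = 0) (B : ℕ) (hB : 2 ≤ B)
    (A ε : ℝ) (hε : 0 < ε) (hε1 : ε ≤ 1) : ∃ c : ℝ, 0 < c ∧ ∃ H0 : ℕ, ∀ H : ℕ, H0 ≤ H → ∀ b s K : ℕ,
      2 ≤ b → b ≤ B → (s : ℝ) ≤ A * Real.log H → 1 ≤ K → (K : ℝ) ≤ (H : ℝ) ^ ((r : ℝ) + 2 - ε) →
      ∀ y : ℝ, ∀ E : Finset ℕ, (∀ a ∈ E, a < K) →
      |(((TT r H).filter (fun p => cell K (((b ^ s : ℕ) : ℝ) * (xx ω p + y)) ∈ E)).card : ℝ) / (TT r H).card -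
        (E.card : ℝ) / K| ≤ (H : ℝ) ^ (-c) := by
  classical
  obtain ⟨τ, hτ⟩ : ∃ τ : ℝ, τ = ε / 16 := ⟨_, rfl⟩
  have hτ0 : 0 < τ := by rw [hτ]; positivity
  obtain ⟨A', hA'⟩ : ∃ A' : ℝ, A' = (r : ℝ) + 4 + |A| * Real.log B := ⟨_, rfl⟩
  have hlB : 0 < Real.log B := Real.log_pos (by exact_mod_cast (by omega : 1 < B))
  have hr0 : (0 : ℝ) ≤ r := Nat.cast_nonneg r
  have hA'0 : 0 < A' := by rw [hA']; positivity
  obtain ⟨Cd, hCd, hdiv⟩ := H353.divisor_bound_real (τ / A') (by positivity)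
  have hgapev := gap ω halg hind B hB A τ hτ0
  have hev : ∀ᶠ H : ℕ in atTop, Cd ≤ (H : ℝ) ^ τ ∧ 64 ≤ (H : ℝ) ^ τ ∧ 10 ≤ (H : ℝ) ^ (τ / 2) ∧
      1 + Real.log ((H : ℝ) + 1) ≤ (H : ℝ) ^ τ ∧ 2 ≤ H := by
    filter_upwards [ev_rpow' Cd τ hτ0, ev_rpow' 64 τ hτ0, ev_rpow' 10 (τ / 2) (by positivity), ev_log' τ hτ0,
      eventually_ge_atTop 2] with H a b c d e
    exact ⟨a, b, c, d, e⟩
  obtain ⟨H0, hH0⟩ := Filter.eventually_atTop.1 (hev.and hgapev)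
  refine ⟨τ / 2, by positivity, H0, fun H hH b s K hb hbB hs hK hKle y E hE => ?_⟩
  obtain ⟨⟨g1, g2, g3, g4, g5⟩, hgap⟩ := hH0 H hH
  have hH2 : (2 : ℝ) ≤ H := by exact_mod_cast g5
  have hHpos : (0 : ℝ) < H := by linarith
  have hH1 : (1 : ℝ) ≤ H := by linarith
  obtain ⟨T, hT⟩ : ∃ T : ℝ, T = (H : ℝ) ^ τ := ⟨_, rfl⟩
  rw [← hT] at g1 g2 g4
  have hT0 : 0 < T := by linarith
  have hT1 : 1 ≤ T := by linarith
  have hT16 : (H : ℝ) ^ ε = T ^ 16 := by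
    rw [hT, ← Real.rpow_natCast, ← Real.rpow_mul hHpos.le]
    congr 1
    rw [hτ]
    push_cast
    ring
  have hT16H : T ^ 16 ≤ H := by
    rw [← hT16]
    calc (H : ℝ) ^ ε ≤ (H : ℝ) ^ (1 : ℝ) := Real.rpow_le_rpow_of_exponent_le hH1 hε1
      _ = H := Real.rpow_one _
  have hKT : (K : ℝ) * T ^ 16 ≤ (H : ℝ) ^ (r + 2) := by
    rw [← hT16]
    calc (K : ℝ) * (H : ℝ) ^ ε ≤ (H : ℝ) ^ ((r : ℝ) + 2 - ε) * (H : ℝ) ^ ε := by gcongr
      _ = (H : ℝ) ^ ((r : ℝ) + 2) := by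
          rw [← Real.rpow_add hHpos]; congr 1; ring
      _ = _ := by
          rw [← Real.rpow_natCast]
          push_cast
          rfl
  obtain ⟨J, hJ⟩ : ∃ J : ℕ, J = ⌈T⌉₊ := ⟨_, rfl⟩
  have hJpos : 0 < J := by rw [hJ]; exact Nat.ceil_pos.2 hT0
  have hJge : T ≤ J := by rw [hJ]; exact Nat.le_ceil T
  have hJle : (J : ℝ) ≤ 2 * T := by
    rw [hJ]
    have := (Nat.ceil_lt_add_one hT0.le).le
    linarith
  have hJR : (0 : ℝ) < J := by linarith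
  have hKR : (1 : ℝ) ≤ K := by exact_mod_cast hK
  obtain ⟨R, hR⟩ : ∃ R : ℕ, R = 2 * (K * J ^ 2) := ⟨_, rfl⟩
  have hRle : (R : ℝ) ≤ 8 * K * T ^ 2 := by
    rw [hR]
    push_cast
    have h1 : (J : ℝ) ^ 2 ≤ (2 * T) ^ 2 := pow_le_pow_left₀ hJR.le hJle 2
    calc 2 * ((K : ℝ) * (J : ℝ) ^ 2) ≤ 2 * ((K : ℝ) * (2 * T) ^ 2) := by gcongr
      _ = _ := by ring
  have hbspos : 0 < b ^ s := pow_pos (by omega) _
  have hbs : ((b ^ s : ℕ) : ℝ) ≤ (H : ℝ) ^ (|A| * Real.log B) := by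
    have hlogH0 : 0 ≤ Real.log H := Real.log_nonneg hH1
    push_cast
    rw [← Real.exp_log hHpos, ← Real.exp_mul, ← Real.log_le_iff_le_exp (by positivity), Real.log_pow]
    have h1 : Real.log b ≤ Real.log B := Real.log_le_log (by positivity) (by exact_mod_cast hbB)
    have h2 : 0 ≤ Real.log b := Real.log_natCast_nonneg b
    calc (s : ℝ) * Real.log b ≤ (|A| * Real.log H) * Real.log B := by
          have h3 : (s : ℝ) ≤ |A| * Real.log H := hs.trans (mul_le_mul_of_nonneg_right (le_abs_self A) hlogH0)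
          gcongr
      _ = _ := by ring
  -- the divisor bound
  have hτ1 : ∀ k, 1 ≤ k → k ≤ R → (((k * b ^ s).divisors.card : ℕ) : ℝ) ≤ T ^ 2 := by
    intro k hk1 hkR
    have hkR' : (k : ℝ) ≤ (H : ℝ) ^ ((r : ℝ) + 4) := by
      have h1 : (k : ℝ) ≤ 8 * K * T ^ 2 := le_trans (by exact_mod_cast hkR) hRle
      refine h1.trans ?_
      have h2 : 8 * (K : ℝ) * T ^ 2 ≤ K * T ^ 16 := by
        have h3 : 8 * T ^ 2 ≤ T ^ 16 := by
          have h4 : T * T ^ 2 ≤ T ^ 16 := by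
            calc T * T ^ 2 = T ^ 3 := by ring
              _ ≤ _ := pow_le_pow_right₀ hT1 (by norm_num)
          have h5 : 8 * T ^ 2 ≤ T * T ^ 2 := by
            refine mul_le_mul_of_nonneg_right (by linarith) (by positivity)
          linarith
        calc 8 * (K : ℝ) * T ^ 2 = K * (8 * T ^ 2) := by ring
          _ ≤ _ := mul_le_mul_of_nonneg_left h3 (by linarith)
      refine h2.trans (hKT.trans ?_)
      rw [← Real.rpow_natCast]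
      exact Real.rpow_le_rpow_of_exponent_le hH1 (by push_cast; linarith)
    have h1 := hdiv (k * b ^ s) (Nat.mul_ne_zero (by omega) hbspos.ne')
    refine h1.trans ?_
    have h2 : ((k * b ^ s : ℕ) : ℝ) ≤ (H : ℝ) ^ A' := by
      rw [Nat.cast_mul, hA', Real.rpow_add hHpos]
      exact mul_le_mul hkR' hbs (Nat.cast_nonneg _) (by positivity)
    have h3 : ((k * b ^ s : ℕ) : ℝ) ^ (τ / A') ≤ T := by
      calc ((k * b ^ s : ℕ) : ℝ) ^ (τ / A') ≤ ((H : ℝ) ^ A') ^ (τ / A') :=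
            Real.rpow_le_rpow (Nat.cast_nonneg _) h2 (by positivity)
        _ = (H : ℝ) ^ τ := by
            rw [← Real.rpow_mul hHpos.le]
            congr 1
            field_simp
        _ = T := hT.symm
    calc Cd * ((k * b ^ s : ℕ) : ℝ) ^ (τ / A') ≤ T * T := by gcongr
      _ = T ^ 2 := by ring
  have hR1 : 1 ≤ R := by
    rw [hR]
    have : 0 < K * J ^ 2 := by positivity
    omega
  have hdm : (((b ^ s).divisors.card : ℕ) : ℝ) ≤ T ^ 2 := by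
    have h1 := hτ1 1 le_rfl hR1
    rwa [one_mul] at h1
  obtain ⟨Δ, hΔ⟩ : ∃ Δ : ℝ, Δ = (H : ℝ) ^ (-((r : ℝ) + τ)) := ⟨_, rfl⟩
  have hΔ0 : 0 < Δ := by rw [hΔ]; positivity
  have hΔ1 : 1 / Δ = (H : ℝ) ^ r * T := by
    rw [hΔ, Real.rpow_neg hHpos.le, one_div, inv_inv, Real.rpow_add hHpos, Real.rpow_natCast, hT]
  have hms := mean_sq ω H (by omega) y (b ^ s) R hbspos hΔ0 (by positivity) hτ1 (fun u hu h hh h' hh' hne p => by
    rw [hΔ]
    exact hgap b s u hb hbB hs hu h hh h' hh' hne p)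
  have hne : (TT r H).Nonempty := by
    rw [← card_pos]
    have h1 := card_TT r H
    have h2 : (0 : ℝ) < (TT r H).card := by rw [h1]; positivity
    exact_mod_cast h2
  have htv := tv_fin (TT r H) hne (fun p => ((b ^ s : ℕ) : ℝ) * (xx ω p + y)) (K := K) (J := J) (by omega) hJpos E hE
  rw [← hR] at htv
  refine htv.trans ?_
  have hnum : 32 * T ^ 2 * (b ^ s).divisors.card * (R * (1 + Real.log (H + 1)) + H * (1 / Δ + 1)) /
      ((H : ℝ) ^ 2 * (2 * H + 1) ^ r) ≤ 1 / (2 * T ^ 2) := by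
    have hP : (0 : ℝ) < (H : ℝ) ^ r := by positivity
    have hP1 : (1 : ℝ) ≤ (H : ℝ) ^ r := one_le_pow₀ hH1
    have e1 : (R : ℝ) * (1 + Real.log (H + 1)) + H * (1 / Δ + 1) ≤ 8 * K * T ^ 3 + 2 * (H * (H : ℝ) ^ r * T) := by
      have e2 : (R : ℝ) * (1 + Real.log (H + 1)) ≤ (8 * K * T ^ 2) * T := by
        have : 0 ≤ 1 + Real.log ((H : ℝ) + 1) := by
          have := Real.log_nonneg (by linarith : (1 : ℝ) ≤ (H : ℝ) + 1)
          linarith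
        gcongr
      have e3 : (H : ℝ) * (1 / Δ + 1) ≤ 2 * (H * (H : ℝ) ^ r * T) := by
        rw [hΔ1]
        have e4 : (1 : ℝ) ≤ (H : ℝ) ^ r * T := by nlinarith
        nlinarith
      calc _ ≤ (8 * K * T ^ 2) * T + 2 * (H * (H : ℝ) ^ r * T) := add_le_add e2 e3
        _ = _ := by ring
    have e2 : (H : ℝ) ^ 2 * (H : ℝ) ^ r ≤ (H : ℝ) ^ 2 * (2 * H + 1) ^ r := by
      gcongr
      linarith
    have e3 : 32 * T ^ 2 * ((b ^ s).divisors.card : ℝ) * (R * (1 + Real.log (H + 1)) + H * (1 / Δ + 1)) ≤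
        32 * T ^ 2 * T ^ 2 * (8 * K * T ^ 3 + 2 * (H * (H : ℝ) ^ r * T)) := by
      have : 0 ≤ (R : ℝ) * (1 + Real.log (H + 1)) + H * (1 / Δ + 1) := by
        have := Real.log_nonneg (by linarith : (1 : ℝ) ≤ (H : ℝ) + 1)
        positivity
      gcongr
    refine (div_le_div₀ (by positivity) e3 (by positivity) e2).trans ?_
    rw [div_le_div_iff₀ (by positivity) (by positivity)]
    -- 32 T^4 (8 K T^3 + 2 H^{r+1} T) 2 T^2 ≤ H^{r+2}
    have e4 : (K : ℝ) * T ^ 16 ≤ (H : ℝ) ^ 2 * (H : ℝ) ^ r := by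
      rw [← pow_add, add_comm]; exact hKT
    have e5 : (H : ℝ) * (H : ℝ) ^ r * T ^ 16 ≤ (H : ℝ) ^ 2 * (H : ℝ) ^ r := by
      calc (H : ℝ) * (H : ℝ) ^ r * T ^ 16 ≤ (H : ℝ) * (H : ℝ) ^ r * H := by gcongr
        _ = _ := by ring
    have e6 : 1024 * T ^ 9 ≤ T ^ 16 := by
      have h1 : (1024 : ℝ) ≤ T ^ 2 := by nlinarith
      calc 1024 * T ^ 9 ≤ T ^ 2 * T ^ 9 := by gcongr
        _ = T ^ 11 := by ring
        _ ≤ _ := pow_le_pow_right₀ hT1 (by norm_num)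
    have e7 : 256 * T ^ 7 ≤ T ^ 16 := by
      have h1 : (256 : ℝ) ≤ T ^ 2 := by nlinarith
      calc 256 * T ^ 7 ≤ T ^ 2 * T ^ 7 := by gcongr
        _ = T ^ 9 := by ring
        _ ≤ _ := pow_le_pow_right₀ hT1 (by norm_num)
    have f1 : K * (1024 * T ^ 9) ≤ K * T ^ 16 := mul_le_mul_of_nonneg_left e6 (by linarith)
    have f2 : (H : ℝ) * (H : ℝ) ^ r * (256 * T ^ 7) ≤ (H : ℝ) * (H : ℝ) ^ r * T ^ 16 :=
      mul_le_mul_of_nonneg_left e7 (by positivity)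
    calc 32 * T ^ 2 * T ^ 2 * (8 * K * T ^ 3 + 2 * (H * (H : ℝ) ^ r * T)) * (2 * T ^ 2)
        = (K * (1024 * T ^ 9)) / 2 + (H * (H : ℝ) ^ r * (256 * T ^ 7)) / 2 := by ring
      _ ≤ 1 * ((H : ℝ) ^ 2 * (H : ℝ) ^ r) := by linarith
  have hsq : √(2 * ∑ k ∈ Icc 1 R, ‖(((TT r H).card : ℝ)⁻¹) • ∑ p ∈ TT r H,
      Pool.Agent.Y933.KD.e ((k : ℝ) * (((b ^ s : ℕ) : ℝ) * (xx ω p + y)))‖ ^ 2) ≤ 1 / T := by
    rw [show 1 / T = √((1 / T) ^ 2) by rw [Real.sqrt_sq (by positivity)]]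
    refine Real.sqrt_le_sqrt ?_
    have h1 := hms.trans hnum
    have h2 : (1 / T) ^ 2 = 2 * (1 / (2 * T ^ 2)) := by
      rw [div_pow, one_pow]
      field_simp
    rw [h2]
    linarith
  have hj : (5 : ℝ) / J ≤ 5 / T := div_le_div_of_nonneg_left (by norm_num) hT0 hJge
  have hTT : T = (H : ℝ) ^ (τ / 2) * (H : ℝ) ^ (τ / 2) := by
    rw [hT, ← Real.rpow_add hHpos]; congr 1; ring
  have hq0 : (0 : ℝ) < (H : ℝ) ^ (τ / 2) := by positivity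
  calc 5 / (J : ℝ) + 5 * √(2 * ∑ k ∈ Icc 1 R, ‖(((TT r H).card : ℝ)⁻¹) • ∑ p ∈ TT r H,
      Pool.Agent.Y933.KD.e ((k : ℝ) * (((b ^ s : ℕ) : ℝ) * (xx ω p + y)))‖ ^ 2)
      ≤ 5 / T + 5 * (1 / T) := by gcongr
    _ = 10 / T := by ring
    _ ≤ (H : ℝ) ^ (-(τ / 2)) := by
        rw [Real.rpow_neg hHpos.le, inv_eq_one_div, div_le_div_iff₀ hT0 hq0, hTT]
        nlinarith

end Pool.Agent.W5h30.FX
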