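import Mathlib
import Pool.Agent.W5h30.FX.Mob
import Pool.Agent.W5h30.FX.Tuple

/-!
# The law of the digits of the elements of a space of algebraic numbers (helper30)
-/

set_option autoImplicit false
set_option linter.unusedVariables false

namespace Pool.Agent.W5h30.FX

open Finset Filter Topology
open Pool.Agent.W5h30.MU (ev_rpow')
open Pool.Agent.W5h30.SM (cell)

variable {r : ℕ}

lemma N_le (r X : ℕ) : ((TT r X).card : ℝ) ≤ 3 ^ r * (X : ℝ) ^ (r + 2) := by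
  rw [card_TT]
  rcases Nat.eq_zero_or_pos X with h | h
  · subst h
    simp
  · have hX : (1 : ℝ) ≤ X := by exact_mod_cast h
    have h1 : (2 * (X : ℝ) + 1) ^ r ≤ (3 * X) ^ r := by
      gcongr
      linarith
    have h2 : (X : ℝ) * (X + 1) / 2 ≤ (X : ℝ) ^ 2 := by nlinarith
    calc (2 * (X : ℝ) + 1) ^ r * (X * (X + 1) / 2) ≤ (3 * X) ^ r * (X : ℝ) ^ 2 := by gcongr
      _ = _ := by rw [mul_pow, pow_add]; ring

lemma N_ge (r H : ℕ) (hH : 1 ≤ H) : (H : ℝ) ^ (r + 2) / 2 ≤ ((TT r H).card : ℝ) := by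
  rw [card_TT]
  have hX : (1 : ℝ) ≤ H := by exact_mod_cast hH
  have h1 : (H : ℝ) ^ r ≤ (2 * (H : ℝ) + 1) ^ r := by
    gcongr
    linarith
  have h2 : (H : ℝ) ^ 2 / 2 ≤ (H : ℝ) * (H + 1) / 2 := by nlinarith
  calc (H : ℝ) ^ (r + 2) / 2 = (H : ℝ) ^ r * ((H : ℝ) ^ 2 / 2) := by rw [pow_add]; ring
    _ ≤ _ := by gcongr

lemma N_div (r H e : ℕ) (he : 1 ≤ e) : ((TT r (H / e)).card : ℝ) ≤ 3 ^ r * (H : ℝ) ^ (r + 2) * ((e : ℝ) ^ 2)⁻¹ := by
  refine (N_le r (H / e)).trans ?_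
  have heR : (1 : ℝ) ≤ e := by exact_mod_cast he
  have h1 : ((H / e : ℕ) : ℝ) ≤ (H : ℝ) / e := Nat.cast_div_le
  have h2 : ((H / e : ℕ) : ℝ) ^ (r + 2) ≤ ((H : ℝ) / e) ^ (r + 2) := pow_le_pow_left₀ (Nat.cast_nonneg _) h1 _
  have h3 : ((H : ℝ) / e) ^ (r + 2) ≤ (H : ℝ) ^ (r + 2) * ((e : ℝ) ^ 2)⁻¹ := by
    rw [div_pow, div_eq_mul_inv]
    refine mul_le_mul_of_nonneg_left ?_ (by positivity)
    refine inv_anti₀ (by positivity) ?_
    exact pow_le_pow_right₀ heR (by omega)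
  calc 3 ^ r * ((H / e : ℕ) : ℝ) ^ (r + 2) ≤ 3 ^ r * ((H : ℝ) ^ (r + 2) * ((e : ℝ) ^ 2)⁻¹) := by
        gcongr
        exact h2.trans h3
    _ = _ := by ring

lemma gg_mu (e : ℕ) (z : ℕ × ℤ × (Fin r → ℤ)) : gg (mu e z) = e * gg z := by
  unfold gg mu
  simp only
  simp only [Int.natAbs_mul, Int.natAbs_natCast]
  rw [Finset.gcd_mul_left, normalize_eq, Nat.gcd_mul_left, Nat.gcd_mul_left]

/-- division of a vector by its greatest common divisor -/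
lemma exists_mu (z : ℕ × ℤ × (Fin r → ℤ)) : ∃ z', z = mu (gg z) z' := by
  obtain ⟨q, a, h⟩ := z
  obtain ⟨e, he⟩ : ∃ e : ℕ, e = gg ((q, a, h) : ℕ × ℤ × (Fin r → ℤ)) := ⟨_, rfl⟩
  obtain ⟨h4, h5, h6⟩ := (dvd_gg ((q, a, h) : ℕ × ℤ × (Fin r → ℤ)) e).1 (by rw [he])
  simp only at h4 h5 h6
  obtain ⟨q', hq'⟩ := h4
  obtain ⟨a', ha'⟩ := h5
  choose h' hh' using h6
  refine ⟨(q', a', h'), ?_⟩
  rw [← he]
  unfold mu
  simp only
  rw [← hq', ← ha']
  congr 2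
  funext j
  exact hh' j

lemma ZZ_card (ω : Fin r → ℝ) (H : ℕ) : (ZZ ω H).card = (TT r H).card := by
  classical
  unfold ZZ
  exact card_image_of_injective _ (phi_inj ω)

/-- many primitive vectors -/
lemma prim_many (ω : Fin r → ℝ) (H : ℕ) (hH : 32 * 3 ^ r ≤ H) :
    (H : ℝ) ^ (r + 2) / (32 * 3 ^ r) ≤ (((ZZ ω H).filter (fun z => gg z = 1)).card : ℝ) := by
  classical
  obtain ⟨P, hP⟩ : ∃ P : ℝ, P = (((ZZ ω H).filter (fun z => gg z = 1)).card : ℝ) := ⟨_, rfl⟩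
  rw [← hP]
  have hP0 : 0 ≤ P := by rw [hP]; exact Nat.cast_nonneg _
  obtain ⟨T, hT⟩ : ∃ T : ℕ, T = 8 * 3 ^ r := ⟨_, rfl⟩
  have h3r : 0 < 3 ^ r := by positivity
  have hTH : T ≤ H := by omega
  have hT0 : T ≠ 0 := by omega
  have hH1 : 1 ≤ H := by omega
  have hHR : (1 : ℝ) ≤ H := by exact_mod_cast hH1
  have hmaps : ∀ z ∈ ZZ ω H, gg z ∈ Icc 1 H := fun z hz => mem_Icc.2 (gg_pos hz)
  have h1 := card_eq_sum_card_fiberwise hmaps
  rw [ZZ_card] at h1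
  have h2 : ∀ e ∈ Icc 1 H, (((ZZ ω H).filter (fun z => gg z = e)).card : ℝ) ≤ P := by
    intro e he
    rw [mem_Icc] at he
    rw [hP]
    have h3 : (ZZ ω H).filter (fun z => gg z = e) ⊆ ((ZZ ω H).filter (fun z => gg z = 1)).image (mu e) := by
      intro z hz
      rw [mem_filter] at hz
      obtain ⟨z', hz'⟩ := exists_mu z
      rw [hz.2] at hz'
      rw [mem_image]
      refine ⟨z', ?_, hz'.symm⟩
      rw [mem_filter]
      constructor
      · have h4 := hz.1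
        rw [mem_ZZ, hz', ZC_mu ω H e he.1] at h4
        rw [mem_ZZ]
        obtain ⟨⟨f1, f2⟩, f3, f4, f5⟩ := h4
        have hle : H / e ≤ H := Nat.div_le_self _ _
        exact ⟨⟨f1, f2.trans hle⟩, fun j => (f3 j).trans (by exact_mod_cast hle), f4, f5⟩
      · have h4 := hz.2
        rw [hz', gg_mu] at h4
        have h5 : e * gg z' = e * 1 := by rw [mul_one]; exact h4
        exact Nat.eq_of_mul_eq_mul_left (by omega) h5
    exact_mod_cast (card_le_card h3).trans card_image_le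
  have h3 : ∀ e ∈ Icc 1 H, (((ZZ ω H).filter (fun z => gg z = e)).card : ℝ) ≤
      3 ^ r * (H : ℝ) ^ (r + 2) * ((e : ℝ) ^ 2)⁻¹ := by
    intro e he
    rw [mem_Icc] at he
    refine le_trans ?_ (N_div r H e he.1)
    have h4 : (ZZ ω H).filter (fun z => gg z = e) ⊆ (ZZ ω H).filter (fun z => e ∣ gg z ∧ (fun _ : ℝ => True) (val ω z)) := by
      intro z hz
      rw [mem_filter] at hz ⊢
      exact ⟨hz.1, by rw [hz.2], trivial⟩
    have h5 := card_le_card h4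
    rw [card_dvd ω H e he.1 (fun _ : ℝ => True)] at h5
    have h6 : (ZZ ω (H / e)).filter (fun z => (fun _ : ℝ => True) (val ω z)) = ZZ ω (H / e) :=
      filter_true_of_mem fun _ _ => trivial
    rw [h6, ZZ_card] at h5
    exact_mod_cast h5
  have h4 : ((TT r H).card : ℝ) = ∑ e ∈ Icc 1 H, (((ZZ ω H).filter (fun z => gg z = e)).card : ℝ) := by
    rw [h1]
    push_cast
    rfl
  have hsplit : Icc 1 H = Icc 1 T ∪ Ioc T H := by
    ext e
    simp only [mem_union, mem_Icc, mem_Ioc]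
    omega
  have hdisj : Disjoint (Icc 1 T) (Ioc T H) := by
    rw [Finset.disjoint_left]
    intro e he he'
    rw [mem_Icc] at he
    rw [mem_Ioc] at he'
    omega
  rw [hsplit, sum_union hdisj] at h4
  have h5 : ∑ e ∈ Icc 1 T, (((ZZ ω H).filter (fun z => gg z = e)).card : ℝ) ≤ T * P := by
    refine (sum_le_sum fun e he => h2 e (by rw [mem_Icc] at he ⊢; omega)).trans ?_
    rw [sum_const, Nat.card_Icc, nsmul_eq_mul]
    have : T + 1 - 1 = T := by omega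
    rw [this]
  have h6 : ∑ e ∈ Ioc T H, (((ZZ ω H).filter (fun z => gg z = e)).card : ℝ) ≤
      3 ^ r * (H : ℝ) ^ (r + 2) * (T : ℝ)⁻¹ := by
    refine (sum_le_sum fun e he => h3 e (by rw [mem_Ioc] at he; rw [mem_Icc]; omega)).trans ?_
    rw [← mul_sum]
    refine mul_le_mul_of_nonneg_left ?_ (by positivity)
    have h7 := sum_Ioc_inv_sq_le_sub (α := ℝ) hT0 hTH
    have h8 : (0 : ℝ) ≤ (H : ℝ)⁻¹ := by positivity
    linarith
  have h7 := N_ge r H hH1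
  have hTR : (T : ℝ) = 8 * 3 ^ r := by rw [hT]; push_cast; ring
  have h8 : 3 ^ r * (H : ℝ) ^ (r + 2) * (T : ℝ)⁻¹ = (H : ℝ) ^ (r + 2) / 8 := by
    rw [hTR]
    field_simp
  have h9 : (H : ℝ) ^ (r + 2) / 4 ≤ T * P := by
    have : (0 : ℝ) < (H : ℝ) ^ (r + 2) := by positivity
    linarith
  rw [div_le_iff₀ (by positivity)]
  rw [hTR] at h9
  linarith

lemma els_sub (ω : Fin r → ℝ) (H : ℕ) : Els ω H ⊆ ((ZZ ω H).image (val ω) : Finset ℝ) := by
  classical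
  rintro x ⟨hx01, q, a, h, hq1, hqH, hh, hx⟩
  rw [mem_coe, mem_image]
  have h1 : (1 : ℝ) ≤ q := by exact_mod_cast hq1
  refine ⟨(q, a, h), ?_, ?_⟩
  · rw [mem_ZZ]
    refine ⟨⟨hq1, hqH⟩, hh, ?_, ?_⟩
    · simp only
      rw [← hx]
      have := hx01.1
      positivity
    · simp only
      rw [← hx]
      nlinarith [hx01.2]
  · unfold val
    simp only
    rw [← hx]
    field_simp

lemma els_fin (ω : Fin r → ℝ) (H : ℕ) : (Els ω H).Finite := by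
  classical
  exact (finite_toSet _).subset (els_sub ω H)

lemma els_le (ω : Fin r → ℝ) (H : ℕ) : ((Els ω H).ncard : ℝ) ≤ 3 ^ r * (H : ℝ) ^ (r + 2) := by
  classical
  have h1 := Set.ncard_le_ncard (els_sub ω H) (finite_toSet _)
  rw [Set.ncard_coe_finset] at h1
  have h2 : (Els ω H).ncard ≤ (TT r H).card := by
    rw [← ZZ_card ω H]
    exact h1.trans card_image_le
  exact le_trans (by exact_mod_cast h2) (N_le r H)

lemma els_ge (ω : Fin r → ℝ)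
    (hind : ∀ (c : Fin r → ℚ) (c0 : ℚ), ∑ j, (c j : ℝ) * ω j + c0 = 0 → c = 0) (H : ℕ) (hH : 32 * 3 ^ r ≤ H) :
    (H : ℝ) ^ (r + 2) / (32 * 3 ^ r) ≤ ((Els ω H).ncard : ℝ) := by
  classical
  have h1 := prim_card ω hind H (fun _ : ℝ => True)
  have h2 : {x | x ∈ Els ω H ∧ (fun _ : ℝ => True) x} = Els ω H := by
    ext x
    exact ⟨fun h => h.1, fun h => ⟨h, trivial⟩⟩
  rw [h2] at h1
  rw [h1]
  refine (prim_many ω H hH).trans (le_of_eq ?_)
  congr 2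
  ext z
  simp only [mem_filter]
  tauto

/-- **the law of the digits of the elements** -/
theorem els_law (ω : Fin r → ℝ) (halg : ∀ j, IsAlgebraic ℚ (ω j))
    (hind : ∀ (c : Fin r → ℚ) (c0 : ℚ), ∑ j, (c j : ℝ) * ω j + c0 = 0 → c = 0) (B : ℕ) (hB : 2 ≤ B)
    (A ε : ℝ) (hε : 0 < ε) (hε1 : ε ≤ 1) : ∃ c : ℝ, 0 < c ∧ ∃ H0 : ℕ, ∀ H : ℕ, H0 ≤ H → ∀ b s K : ℕ,
      2 ≤ b → b ≤ B → (s : ℝ) ≤ A * Real.log H → 1 ≤ K → (K : ℝ) ≤ (H : ℝ) ^ ((r : ℝ) + 2 - ε) →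
      ∀ y : ℝ, ∀ E : Finset ℕ, (∀ a ∈ E, a < K) →
      |({x | x ∈ Els ω H ∧ cell K (((b ^ s : ℕ) : ℝ) * (x + y)) ∈ E}.ncard : ℝ) / (Els ω H).ncard -
        (E.card : ℝ) / K| ≤ (H : ℝ) ^ (-c) := by
  classical
  have hr0 : (0 : ℝ) ≤ r := Nat.cast_nonneg r
  obtain ⟨η, hη⟩ : ∃ η : ℝ, η = ε / (4 * (r + 2)) := ⟨_, rfl⟩
  have hη0 : 0 < η := by rw [hη]; positivity
  have hηr : 4 * η * (r + 2) = ε := by rw [hη]; field_simp
  have hη8 : 8 * η ≤ 1 := by nlinarith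
  obtain ⟨c1, hc1, H1, hlaw⟩ := tuple_law ω halg hind B hB (2 * |A|) (ε / 2) (by positivity) (by linarith)
  obtain ⟨c, hc⟩ : ∃ c : ℝ, c = min (c1 / 4) (η / 2) := ⟨_, rfl⟩
  have hc0 : 0 < c := by rw [hc]; exact lt_min (by positivity) (by positivity)
  have hca : 2 * c ≤ c1 / 2 := by
    have : c ≤ c1 / 4 := by rw [hc]; exact min_le_left _ _
    linarith
  have hcb : 2 * c ≤ η := by
    have : c ≤ η / 2 := by rw [hc]; exact min_le_right _ _
    linarith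
  obtain ⟨C, hC⟩ : ∃ C : ℝ, C = 32 * 3 ^ r * (3 ^ r * 4) := ⟨_, rfl⟩
  have hev : ∀ᶠ H : ℕ in atTop, C ≤ (H : ℝ) ^ c ∧ 2 ≤ (H : ℝ) ^ η ∧ (H1 : ℝ) ≤ (H : ℝ) ^ ((1 : ℝ) / 2) ∧
      32 * 3 ^ r ≤ H ∧ 2 ≤ H := by
    filter_upwards [ev_rpow' C c hc0, ev_rpow' 2 η hη0, ev_rpow' H1 (1 / 2) (by positivity),
      eventually_ge_atTop (32 * 3 ^ r), eventually_ge_atTop 2] with H a b c d e
    exact ⟨a, b, c, d, e⟩
  obtain ⟨H0, hH0⟩ := Filter.eventually_atTop.1 hev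
  refine ⟨c, hc0, H0, fun H hH b s K hb hbB hs hK hKle y E hE => ?_⟩
  obtain ⟨g1, g2, g3, g4, g5⟩ := hH0 H hH
  have hH2 : (2 : ℝ) ≤ H := by exact_mod_cast g5
  have hHpos : (0 : ℝ) < H := by linarith
  have hH1 : (1 : ℝ) ≤ H := by linarith
  have hKR : (1 : ℝ) ≤ K := by exact_mod_cast hK
  obtain ⟨κ, hκ⟩ : ∃ κ : ℝ, κ = (E.card : ℝ) / K := ⟨_, rfl⟩
  have hκ0 : 0 ≤ κ := by rw [hκ]; positivity
  have hκ1 : κ ≤ 1 := by
    rw [hκ, div_le_one (by linarith)]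
    have h1 : E ⊆ range K := fun a ha => mem_range.2 (hE a ha)
    have h2 := card_le_card h1
    rw [card_range] at h2
    exact_mod_cast h2
  rw [← hκ]
  -- Möbius
  have hm1 := mob ω hind H (fun x => cell K (((b ^ s : ℕ) : ℝ) * (x + y)) ∈ E)
  have hm2 := mob ω hind H (fun _ => True)
  have h2 : {x | x ∈ Els ω H ∧ (fun _ : ℝ => True) x} = Els ω H := by
    ext x
    exact ⟨fun h => h.1, fun h => ⟨h, trivial⟩⟩
  rw [h2] at hm2
  have h3 : ∀ X : ℕ, (TT r X).filter (fun p => (fun _ : ℝ => True) (xx ω p)) = TT r X := fun X =>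
    filter_true_of_mem fun _ _ => trivial
  simp only [h3] at hm2
  obtain ⟨N, hN⟩ : ∃ N : ℝ, N = ((Els ω H).ncard : ℝ) := ⟨_, rfl⟩
  obtain ⟨NE, hNE⟩ : ∃ NE : ℝ, NE = ({x | x ∈ Els ω H ∧ cell K (((b ^ s : ℕ) : ℝ) * (x + y)) ∈ E}.ncard : ℝ) := ⟨_, rfl⟩
  rw [← hN] at hm2 ⊢
  rw [← hNE] at hm1 ⊢
  have hNge : (H : ℝ) ^ (r + 2) / (32 * 3 ^ r) ≤ N := by rw [hN]; exact els_ge ω hind H g4
  have hPow : (0 : ℝ) < (H : ℝ) ^ (r + 2) := by positivity
  have hNpos : 0 < N := lt_of_lt_of_le (by positivity) hNge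
  set NX : ℕ → ℝ := fun X => ((TT r X).card : ℝ) with hNX
  set NEX : ℕ → ℝ := fun X => (((TT r X).filter (fun p => cell K (((b ^ s : ℕ) : ℝ) * (xx ω p + y)) ∈ E)).card : ℝ) with hNEX
  have hdiff : NE - κ * N = ∑ e ∈ Icc 1 H, ((ArithmeticFunction.moebius e : ℤ) : ℝ) * (NEX (H / e) - κ * NX (H / e)) := by
    rw [hm1, hm2, mul_sum, ← sum_sub_distrib]
    refine sum_congr rfl fun e _ => ?_
    rw [hNX, hNEX]
    ring
  have hmu1 : ∀ e : ℕ, |((ArithmeticFunction.moebius e : ℤ) : ℝ)| ≤ 1 := by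
    intro e
    exact_mod_cast ArithmeticFunction.abs_moebius_le_one
  have hNEle : ∀ X, NEX X ≤ NX X := fun X => by
    rw [hNEX, hNX]
    exact Nat.cast_le.2 (card_filter_le _ _)
  have hNE0 : ∀ X, 0 ≤ NEX X := fun X => Nat.cast_nonneg _
  have hNX0 : ∀ X, 0 ≤ NX X := fun X => Nat.cast_nonneg _
  -- the trivial bound
  have htriv : ∀ e ∈ Icc 1 H, |NEX (H / e) - κ * NX (H / e)| ≤ 3 ^ r * (H : ℝ) ^ (r + 2) * ((e : ℝ) ^ 2)⁻¹ := by
    intro e he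
    rw [mem_Icc] at he
    refine le_trans ?_ (N_div r H e he.1)
    have e1 := hNEle (H / e)
    have e2 := hNE0 (H / e)
    have e3 := hNX0 (H / e)
    have e4 : κ * NX (H / e) ≤ 1 * NX (H / e) := mul_le_mul_of_nonneg_right hκ1 e3
    have e5 : 0 ≤ κ * NX (H / e) := mul_nonneg hκ0 e3
    rw [abs_le]
    constructor
    · show -NX (H / e) ≤ _
      linarith
    · show _ ≤ NX (H / e)
      linarith
  -- the good bound
  obtain ⟨T, hT⟩ : ∃ T : ℕ, T = ⌊(H : ℝ) ^ η⌋₊ := ⟨_, rfl⟩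
  have hT1 : (T : ℝ) ≤ (H : ℝ) ^ η := by rw [hT]; exact Nat.floor_le (by positivity)
  have hT2 : (H : ℝ) ^ η / 2 ≤ T := by
    have := Nat.lt_floor_add_one ((H : ℝ) ^ η)
    rw [← hT] at this
    linarith
  have hT0 : T ≠ 0 := by
    intro h0
    rw [h0] at hT2
    norm_num at hT2
    linarith
  have hTH : T ≤ H := by
    have h4 : (T : ℝ) ≤ H := by
      refine hT1.trans ?_
      calc (H : ℝ) ^ η ≤ (H : ℝ) ^ (1 : ℝ) := Real.rpow_le_rpow_of_exponent_le hH1 (by linarith)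
        _ = H := Real.rpow_one _
    exact_mod_cast h4
  have hgood : ∀ e ∈ Icc 1 T, |NEX (H / e) - κ * NX (H / e)| ≤
      3 ^ r * (H : ℝ) ^ (r + 2) * ((e : ℝ) ^ 2)⁻¹ * (H : ℝ) ^ (-(c1 / 2)) := by
    intro e he
    rw [mem_Icc] at he
    have heR : (1 : ℝ) ≤ e := by exact_mod_cast he.1
    have heT : (e : ℝ) ≤ (H : ℝ) ^ η := le_trans (by exact_mod_cast he.2) hT1
    obtain ⟨X, hX⟩ : ∃ X : ℕ, X = H / e := ⟨_, rfl⟩
    rw [← hX]
    have hXlow : (H : ℝ) ^ (1 - 2 * η) ≤ X := by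
      have h4 : (H : ℝ) / e < (X : ℝ) + 1 := by
        rw [hX]
        rw [div_lt_iff₀ (by linarith)]
        have h5 := Nat.lt_mul_div_succ H (by omega : 0 < e)
        have h6 : (H : ℝ) < e * ((H / e : ℕ) + 1) := by exact_mod_cast h5
        linarith
      have h5 : (H : ℝ) ^ (1 - η) ≤ (H : ℝ) / e := by
        rw [le_div_iff₀ (by linarith)]
        calc (H : ℝ) ^ (1 - η) * e ≤ (H : ℝ) ^ (1 - η) * (H : ℝ) ^ η := by gcongr
          _ = H := by rw [← Real.rpow_add hHpos]; simp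
      have h6 : (H : ℝ) ^ (1 - η) = (H : ℝ) ^ (1 - 2 * η) * (H : ℝ) ^ η := by
        rw [← Real.rpow_add hHpos]; congr 1; ring
      have h7 : (1 : ℝ) ≤ (H : ℝ) ^ (1 - 2 * η) := Real.one_le_rpow hH1 (by linarith)
      nlinarith
    have hXhalf : (H : ℝ) ^ ((1 : ℝ) / 2) ≤ X :=
      (Real.rpow_le_rpow_of_exponent_le hH1 (by linarith)).trans hXlow
    have hX0 : (0 : ℝ) < X := lt_of_lt_of_le (by positivity) hXhalf
    have hX1 : (1 : ℝ) ≤ X := le_trans (Real.one_le_rpow hH1 (by norm_num)) hXhalf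
    have hH1X : H1 ≤ X := by exact_mod_cast g3.trans hXhalf
    have hlogX : Real.log H ≤ 2 * Real.log X := by
      have h4 := Real.log_le_log (by positivity) hXhalf
      rw [Real.log_rpow hHpos] at h4
      linarith
    have hlogH0 : 0 ≤ Real.log H := Real.log_nonneg hH1
    have hs' : (s : ℝ) ≤ 2 * |A| * Real.log X := by
      calc (s : ℝ) ≤ A * Real.log H := hs
        _ ≤ |A| * Real.log H := mul_le_mul_of_nonneg_right (le_abs_self A) hlogH0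
        _ ≤ |A| * (2 * Real.log X) := mul_le_mul_of_nonneg_left hlogX (abs_nonneg _)
        _ = _ := by ring
    have hK' : (K : ℝ) ≤ (X : ℝ) ^ ((r : ℝ) + 2 - ε / 2) := by
      refine hKle.trans ?_
      calc (H : ℝ) ^ ((r : ℝ) + 2 - ε) ≤ (H : ℝ) ^ ((1 - 2 * η) * ((r : ℝ) + 2 - ε / 2)) := by
            refine Real.rpow_le_rpow_of_exponent_le hH1 ?_
            nlinarith
        _ = ((H : ℝ) ^ (1 - 2 * η)) ^ ((r : ℝ) + 2 - ε / 2) := Real.rpow_mul hHpos.le _ _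
        _ ≤ _ := Real.rpow_le_rpow (by positivity) hXlow (by linarith)
    have h4 := hlaw X hH1X b s K hb hbB hs' hK hK' y E hE
    have hNXpos : 0 < NX X := by
      have h5 := N_ge r X (by exact_mod_cast hX1)
      have h6 : (0 : ℝ) < (X : ℝ) ^ (r + 2) / 2 := by positivity
      exact lt_of_lt_of_le h6 h5
    have h5 : |NEX X - κ * NX X| ≤ NX X * (X : ℝ) ^ (-c1) := by
      have h6 : NEX X - κ * NX X = NX X * (NEX X / NX X - κ) := by
        field_simp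
      rw [h6, abs_mul, abs_of_pos hNXpos]
      refine mul_le_mul_of_nonneg_left ?_ hNXpos.le
      rw [hκ]
      exact h4
    refine h5.trans ?_
    refine mul_le_mul ?_ ?_ (by positivity) (by positivity)
    · rw [hX]; exact N_div r H e he.1
    · calc (X : ℝ) ^ (-c1) ≤ ((H : ℝ) ^ ((1 : ℝ) / 2)) ^ (-c1) :=
            Real.rpow_le_rpow_of_nonpos (by positivity) hXhalf (by linarith)
        _ = (H : ℝ) ^ (-(c1 / 2)) := by
            rw [← Real.rpow_mul hHpos.le]; congr 1; ring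
  have hsplit : Icc 1 H = Icc 1 T ∪ Ioc T H := by
    ext e
    simp only [mem_union, mem_Icc, mem_Ioc]
    omega
  have hdisj : Disjoint (Icc 1 T) (Ioc T H) := by
    rw [Finset.disjoint_left]
    intro e he he'
    rw [mem_Icc] at he
    rw [mem_Ioc] at he'
    omega
  have hinv2 : ∑ e ∈ Icc 1 T, ((e : ℝ) ^ 2)⁻¹ ≤ 2 := by
    have h4 := sum_Ioo_inv_sq_le (α := ℝ) 0 (T + 1)
    refine le_trans (le_of_eq ?_) (h4.trans (by norm_num))
    refine sum_congr ?_ fun _ _ => rfl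
    ext e
    simp only [mem_Icc, mem_Ioo]
    omega
  have hinv3 : ∑ e ∈ Ioc T H, ((e : ℝ) ^ 2)⁻¹ ≤ 2 * (H : ℝ) ^ (-η) := by
    have h7 := sum_Ioc_inv_sq_le_sub (α := ℝ) hT0 hTH
    have h8 : (0 : ℝ) ≤ (H : ℝ)⁻¹ := by positivity
    have h9 : ((T : ℝ))⁻¹ ≤ 2 * (H : ℝ) ^ (-η) := by
      rw [Real.rpow_neg hHpos.le, inv_eq_one_div, ← div_eq_mul_inv]
      have hTpos : (0 : ℝ) < T := by
        have : 0 < T := by omega
        exact_mod_cast this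
      rw [div_le_div_iff₀ hTpos (by positivity)]
      linarith
    linarith
  have htotal : |NE - κ * N| ≤ 3 ^ r * (H : ℝ) ^ (r + 2) * (2 * (H : ℝ) ^ (-(c1 / 2)) + 2 * (H : ℝ) ^ (-η)) := by
    rw [hdiff]
    refine (abs_sum_le_sum_abs _ _).trans ?_
    have h4 : ∀ e ∈ Icc 1 H, |((ArithmeticFunction.moebius e : ℤ) : ℝ) * (NEX (H / e) - κ * NX (H / e))| ≤
        |NEX (H / e) - κ * NX (H / e)| := by
      intro e _
      rw [abs_mul]
      have := hmu1 e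
      have := abs_nonneg (NEX (H / e) - κ * NX (H / e))
      nlinarith
    refine (sum_le_sum h4).trans ?_
    rw [hsplit, sum_union hdisj, mul_add]
    refine add_le_add ?_ ?_
    · refine (sum_le_sum hgood).trans ?_
      rw [← sum_mul, ← mul_sum]
      calc 3 ^ r * (H : ℝ) ^ (r + 2) * (∑ e ∈ Icc 1 T, ((e : ℝ) ^ 2)⁻¹) * (H : ℝ) ^ (-(c1 / 2))
          ≤ 3 ^ r * (H : ℝ) ^ (r + 2) * 2 * (H : ℝ) ^ (-(c1 / 2)) := by gcongr
        _ = _ := by ring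
    · refine (sum_le_sum fun e he => htriv e (by rw [mem_Ioc] at he; rw [mem_Icc]; omega)).trans ?_
      rw [← mul_sum]
      exact mul_le_mul_of_nonneg_left hinv3 (by positivity)
  have h5 : NE / N - κ = (NE - κ * N) / N := by field_simp
  rw [h5, abs_div, abs_of_pos hNpos, div_le_iff₀ hNpos]
  refine htotal.trans ?_
  have e1 : (H : ℝ) ^ (-(c1 / 2)) ≤ (H : ℝ) ^ (-(2 * c)) := Real.rpow_le_rpow_of_exponent_le hH1 (by linarith)
  have e2 : (H : ℝ) ^ (-η) ≤ (H : ℝ) ^ (-(2 * c)) := Real.rpow_le_rpow_of_exponent_le hH1 (by linarith)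
  have e3 : (H : ℝ) ^ (-(2 * c)) = (H : ℝ) ^ (-c) * (H : ℝ) ^ (-c) := by
    rw [← Real.rpow_add hHpos]; congr 1; ring
  have e4 : C * (H : ℝ) ^ (-c) ≤ 1 := by
    rw [Real.rpow_neg hHpos.le, ← div_eq_mul_inv, div_le_one (by positivity)]
    exact g1
  have e5 : (0 : ℝ) < (H : ℝ) ^ (-c) := by positivity
  calc 3 ^ r * (H : ℝ) ^ (r + 2) * (2 * (H : ℝ) ^ (-(c1 / 2)) + 2 * (H : ℝ) ^ (-η))
      ≤ 3 ^ r * (H : ℝ) ^ (r + 2) * (4 * ((H : ℝ) ^ (-c) * (H : ℝ) ^ (-c))) := by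
        refine mul_le_mul_of_nonneg_left ?_ (by positivity)
        rw [← e3]
        linarith
    _ = (C * (H : ℝ) ^ (-c)) * ((H : ℝ) ^ (-c) * ((H : ℝ) ^ (r + 2) / (32 * 3 ^ r))) := by
        rw [hC]
        field_simp
    _ ≤ 1 * ((H : ℝ) ^ (-c) * ((H : ℝ) ^ (r + 2) / (32 * 3 ^ r))) := by gcongr
    _ ≤ (H : ℝ) ^ (-c) * N := by
        rw [one_mul]
        exact mul_le_mul_of_nonneg_left hNge e5.le

end Pool.Agent.W5h30.FX
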